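import Pool.Agent.K9h4.PF.Rat

/-!
# Acceptance probabilities and forests
-/

open Finset Matrix Filter Topology

namespace K9h4.PF

variable {M : PFA2}

/-- block of the columns `l` -/
def sufOf (M : PFA2) : List Sym → Suf M
  | [] => Suf.nil M
  | s :: l => (sufOf M l).cons s

/-- columns of the tape holding `w` -/
def cols (w : List Paren) : List Sym := .lmark :: (w.map .par ++ [.rmark])

/-- the relation between head positions -/
def mv (m : Move) (i j : ℕ) : Prop :=
  match m with
  | .left => j + 1 = i
  | .stay => j = i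
  | .right => j = i + 1

theorem mv_movePos {m : Move} {i j : ℕ} (h : mv m i j) : j = movePos m i := by
  cases m <;> simp only [mv, movePos] at * <;> omega

theorem mv_succ {m : Move} {i j : ℕ} (h : mv m i j) : mv m (i + 1) (j + 1) := by
  cases m <;> simp only [mv] at * <;> omega

structure Good (S : Suf M) (l : List Sym) : Prop where
  sm : ∀ v, l[S.pos v]? = some (S.smb v)
  rw : ∀ v q' m v', S.raw v (q', m) = Sum.inl v' → S.stt v' = q' ∧ mv m (S.pos v) (S.pos v')
  lf : ∀ v t q'', S.raw v t = Sum.inr (Sum.inl q'') → t.2 = .left ∧ S.pos v = 0 ∧ t.1 = q''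
  rt : ∀ v t b, S.raw v t = Sum.inr (Sum.inr b) → t.2 = .right ∧ S.pos v + 1 = l.length
  en : ∀ q v, S.enter q = Sum.inl v → S.stt v = q ∧ S.pos v = 0
  en' : ∀ q e, S.enter q = Sum.inr e → l = []

theorem good_nil : Good (Suf.nil M) [] where
  sm := fun v => v.elim
  rw := fun v => v.elim
  lf := fun v => v.elim
  rt := fun v => v.elim
  en := by intro q v h; exact v.elim
  en' := fun _ _ _ => rfl

theorem lft_eq_right {V1 Q : Type*} {z : V1 ⊕ (Q ⊕ Bool)} {b : Bool}
    (h : lft z = Sum.inr (Sum.inr b)) : z = Sum.inr (Sum.inr b) := by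
  rcases z with v' | q' | b'
  · simp [lft] at h
  · simp [lft] at h
  · simp only [lft, Sum.inr.injEq] at h
    rw [h]

theorem good_cons {S : Suf M} {l : List Sym} (s : Sym) (h : Good S l) :
    Good (S.cons s) (s :: l) where
  sm := by
    rintro (q | v)
    · rfl
    · exact h.sm v
  rw := by
    rintro (q | u) q' m v' hr
    · cases m with
      | left =>
        have e : (Sum.inr (Sum.inl q') : (M.Q ⊕ S.V) ⊕ (M.Q ⊕ Bool)) = Sum.inl v' := hr
        simp at e
      | stay =>
        have e : (Sum.inl (Sum.inl q') : (M.Q ⊕ S.V) ⊕ (M.Q ⊕ Bool)) = Sum.inl v' := hr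
        have e' := Sum.inl.inj e
        rw [← e']
        exact ⟨rfl, rfl⟩
      | right =>
        have e : lft (S.enter q') = Sum.inl v' := hr
        rcases v' with q3 | v''
        · have := S.enter_ok _ _ (lft_eq_col e)
          simp at this
        · obtain ⟨h1, h2⟩ := h.en _ _ (lft_eq_inl e)
          refine ⟨h1, ?_⟩
          show S.pos v'' + 1 = 0 + 1
          rw [h2]
    · have e : lft (S.raw u (q', m)) = Sum.inl v' := hr
      rcases v' with q3 | v''
      · obtain ⟨h1, h2, h3⟩ := h.lf _ _ _ (lft_eq_col e)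
        simp only at h1 h3
        subst h1
        refine ⟨h3.symm, ?_⟩
        show 0 + 1 = S.pos u + 1
        rw [h2]
      · obtain ⟨h1, h2⟩ := h.rw _ _ _ _ (lft_eq_inl e)
        exact ⟨h1, mv_succ h2⟩
  lf := by
    rintro (q | u) ⟨q', m⟩ q'' hr
    · cases m with
      | left =>
        have e : (Sum.inr (Sum.inl q') : (M.Q ⊕ S.V) ⊕ (M.Q ⊕ Bool)) = Sum.inr (Sum.inl q'') := hr
        simp only [Sum.inr.injEq, Sum.inl.injEq] at e
        exact ⟨rfl, rfl, e⟩
      | stay =>
        have e : (Sum.inl (Sum.inl q') : (M.Q ⊕ S.V) ⊕ (M.Q ⊕ Bool)) = Sum.inr (Sum.inl q'') := hr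
        simp at e
      | right => exact (lft_ne_left (show lft (S.enter q') = _ from hr)).elim
    · exact (lft_ne_left (show lft (S.raw u (q', m)) = _ from hr)).elim
  rt := by
    rintro (q | u) ⟨q', m⟩ b hr
    · cases m with
      | left =>
        have e : (Sum.inr (Sum.inl q') : (M.Q ⊕ S.V) ⊕ (M.Q ⊕ Bool)) = Sum.inr (Sum.inr b) := hr
        simp at e
      | stay =>
        have e : (Sum.inl (Sum.inl q') : (M.Q ⊕ S.V) ⊕ (M.Q ⊕ Bool)) = Sum.inr (Sum.inr b) := hr
        simp at e
      | right =>
        have e : lft (S.enter q') = Sum.inr (Sum.inr b) := hr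
        have hl := h.en' _ _ (lft_eq_right e)
        subst hl
        exact ⟨rfl, rfl⟩
    · have e : lft (S.raw u (q', m)) = Sum.inr (Sum.inr b) := hr
      obtain ⟨h1, h2⟩ := h.rt _ _ _ (lft_eq_right e)
      refine ⟨h1, ?_⟩
      show S.pos u + 1 + 1 = (s :: l).length
      rw [List.length_cons, h2]
  en := by
    intro q v hv
    have e := Sum.inl.inj hv
    rw [← e]
    exact ⟨rfl, rfl⟩
  en' := by
    intro q e he
    have e' : (Sum.inl (Sum.inl q) : (M.Q ⊕ S.V) ⊕ (M.Q ⊕ Bool)) = Sum.inr e := he
    simp at e'

theorem good_sufOf (l : List Sym) : Good (sufOf M l) l := by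
  induction l with
  | nil => exact good_nil
  | cons s l ih => exact good_cons s ih

theorem tape_cols {w : List Paren} {i : ℕ} {s : Sym} (h : (cols w)[i]? = some s) :
    tape w i = s := by
  unfold cols at h
  cases i with
  | zero => simpa [tape] using h
  | succ i =>
    rw [List.getElem?_cons_succ] at h
    simp only [tape]
    by_cases hi : i < w.length
    · rw [List.getElem?_append_left (by simpa using hi), List.getElem?_map,
        List.getElem?_eq_getElem hi] at h
      rw [List.getElem?_eq_getElem hi]
      simpa using h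
    · rw [List.getElem?_eq_none (by omega)]
      rw [List.getElem?_append_right (by simpa using hi)] at h
      rw [List.getElem?_singleton] at h
      split_ifs at h with h2
      simpa using h

theorem cols_first {w : List Paren} {s : Sym} (h : (cols w)[0]? = some s) : s = .lmark := by
  simpa [cols] using h.symm

theorem cols_last {w : List Paren} {i : ℕ} {s : Sym} (h : (cols w)[i]? = some s)
    (hi : i + 1 = (cols w).length) : s = .rmark := by
  unfold cols at h hi
  simp only [List.length_cons, List.length_append, List.length_map, List.length_nil] at hi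
  have e : i = w.length + 1 := by omega
  subst e
  rw [List.getElem?_cons_succ, List.getElem?_append_right (by simp)] at h
  simpa using h.symm

/-- moves of positive probability stay inside the full tape -/
theorem inner_move {S : Suf M} {w : List Paren} (hG : Good S (cols w)) (v : S.V)
    (t : M.Q × Move) (ht : 0 < S.wt v t) :
    ∃ v', S.raw v t = Sum.inl v' ∧ S.stt v' = t.1 ∧ S.pos v' = movePos t.2 (S.pos v) := by
  obtain ⟨q', m⟩ := t
  cases hr : S.raw v (q', m) with
  | inl v' =>
    obtain ⟨h1, h2⟩ := hG.rw _ _ _ _ hr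
    exact ⟨v', rfl, h1, mv_movePos h2⟩
  | inr e =>
    rcases e with q'' | b
    · obtain ⟨h1, h2, h3⟩ := hG.lf _ _ _ hr
      have h4 := hG.sm v
      rw [h2] at h4
      have h5 := cols_first h4
      simp only at h1
      unfold Suf.wt at ht
      rw [h5, h1, M.lmark_left] at ht
      exact absurd ht (lt_irrefl _)
    · obtain ⟨h1, h2⟩ := hG.rt _ _ _ hr
      have h5 := cols_last (hG.sm v) h2
      simp only at h1
      unfold Suf.wt at ht
      rw [h5, h1, M.rmark_right] at ht
      exact absurd ht (lt_irrefl _)

/-! ### Acceptance probabilities -/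

theorem accWithin_nonneg (w : List Paren) : ∀ t q i, 0 ≤ M.accWithin w t q i := by
  intro t
  induction t with
  | zero => intro q i; unfold PFA2.accWithin; split_ifs <;> norm_num
  | succ t ih =>
    intro q i
    unfold PFA2.accWithin
    split_ifs
    · norm_num
    · exact le_rfl
    · exact Finset.sum_nonneg (fun x _ => mul_nonneg (M.prob_nonneg _ _ _) (ih _ _))

theorem accWithin_le_one (w : List Paren) : ∀ t q i, M.accWithin w t q i ≤ 1 := by
  intro t
  induction t with
  | zero => intro q i; unfold PFA2.accWithin; split_ifs <;> norm_num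
  | succ t ih =>
    intro q i
    unfold PFA2.accWithin
    split_ifs
    · exact le_rfl
    · norm_num
    · calc _ ≤ ∑ x : M.Q × Move, M.prob q (tape w i) x * 1 :=
          Finset.sum_le_sum (fun x _ => mul_le_mul_of_nonneg_left (ih _ _) (M.prob_nonneg _ _ _))
        _ = 1 := by rw [← Finset.sum_mul, M.prob_sum, one_mul]

theorem accWithin_succ_le (w : List Paren) : ∀ t q i,
    M.accWithin w t q i ≤ M.accWithin w (t + 1) q i := by
  intro t
  induction t with
  | zero =>
    intro q i
    by_cases h : M.halt q = some true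
    · simp [PFA2.accWithin, h]
    · have : M.accWithin w 0 q i = 0 := by simp [PFA2.accWithin, h]
      rw [this]
      exact accWithin_nonneg w _ _ _
  | succ t ih =>
    intro q i
    rw [PFA2.accWithin, PFA2.accWithin]
    split_ifs
    · exact le_rfl
    · exact le_rfl
    · exact Finset.sum_le_sum (fun x _ => mul_le_mul_of_nonneg_left (ih _ _) (M.prob_nonneg _ _ _))

/-- acceptance probability from a configuration -/
noncomputable def accL (M : PFA2) (w : List Paren) (q : M.Q) (i : ℕ) : ℝ :=
  ⨆ t, M.accWithin w t q i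

theorem accL_tendsto (w : List Paren) (q : M.Q) (i : ℕ) :
    Tendsto (fun t => M.accWithin w t q i) atTop (𝓝 (accL M w q i)) := by
  refine tendsto_atTop_ciSup (monotone_nat_of_le_succ (fun t => accWithin_succ_le w t q i)) ?_
  exact ⟨1, by rintro _ ⟨t, rfl⟩; exact accWithin_le_one w t q i⟩

theorem accL_halt (w : List Paren) (q : M.Q) (i : ℕ) (b : Bool) (h : M.halt q = some b) :
    accL M w q i = if b = true then 1 else 0 := by
  have h1 : ∀ t, M.accWithin w t q i = if b = true then 1 else 0 := by
    intro t
    cases t with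
    | zero =>
      unfold PFA2.accWithin
      rw [h]
      cases b <;> simp
    | succ t =>
      unfold PFA2.accWithin
      rw [h]
      cases b <;> simp
  have h2 := accL_tendsto (M := M) w q i
  simp_rw [h1] at h2
  exact tendsto_nhds_unique h2 tendsto_const_nhds

theorem accL_rec (w : List Paren) (q : M.Q) (i : ℕ) (h : M.halt q = none) :
    accL M w q i = ∑ x : M.Q × Move, M.prob q (tape w i) x * accL M w x.1 (movePos x.2 i) := by
  have h1 : Tendsto (fun t => M.accWithin w (t + 1) q i) atTop (𝓝 (accL M w q i)) :=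
    (accL_tendsto w q i).comp (tendsto_add_atTop_nat 1)
  have h2 : (fun t => M.accWithin w (t + 1) q i) = fun t =>
      ∑ x : M.Q × Move, M.prob q (tape w i) x * M.accWithin w t x.1 (movePos x.2 i) := by
    funext t
    rw [PFA2.accWithin]
    rw [h]
    simp
  rw [h2] at h1
  refine tendsto_nhds_unique h1 ?_
  exact tendsto_finsetSum _ (fun x _ => (accL_tendsto w _ _).const_mul _)

theorem closed_zero {S : Suf M} {w : List Paren} (hG : Good S (cols w)) (β : S.V → Bool)
    (hβ : S.Closed β) (v : S.V) (hv : β v = true) :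
    accL M w (S.stt v) (S.pos v) = 0 := by
  have h1 : ∀ t v, β v = true → M.accWithin w t (S.stt v) (S.pos v) = 0 := by
    intro t
    induction t with
    | zero =>
      intro v hv
      simp [PFA2.accWithin, (hβ v hv).1]
    | succ t ih =>
      intro v hv
      rw [PFA2.accWithin, (hβ v hv).1]
      simp only [reduceCtorEq, if_false]
      refine Finset.sum_eq_zero (fun x _ => ?_)
      rw [tape_cols (hG.sm v)]
      rcases (M.prob_nonneg (S.stt v) (S.smb v) x).lt_or_eq with h0 | h0
      · obtain ⟨v', e1, e2, e3⟩ := inner_move hG v x h0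
        rcases (hβ v hv).2 x h0 with ⟨v'', hv'', hb⟩ | ⟨q', hq'⟩
        · rw [e1] at hv''
          have := Sum.inl.inj hv''
          subst this
          rw [← e2, ← e3, ih _ hb, mul_zero]
        · rw [e1] at hq'
          simp at hq'
      · rw [← h0, zero_mul]
  have h2 := accL_tendsto (M := M) w (S.stt v) (S.pos v)
  simp_rw [fun t => h1 t v hv] at h2
  exact tendsto_nhds_unique h2 tendsto_const_nhds

/-- value of an exit -/
def hA {Q : Type} [DecidableEq Q] (e : Q ⊕ Bool) : ℝ := if e = Sum.inr true then 1 else 0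

/-- the harmonic extension -/
noncomputable def harmf (S : Suf M) (w : List Paren) : S.V ⊕ (M.Q ⊕ Bool) → ℝ :=
  Sum.elim (fun v => accL M w (S.stt v) (S.pos v)) hA

theorem harmonic_acc {S : Suf M} {w : List Paren} (hG : Good S (cols w)) (β : S.V → Bool)
    (hβ : S.Closed β) (v : S.V) :
    ∑ t, S.wt v t * harmf S w (S.tgt β v t) = harmf S w (Sum.inl v) := by
  have hz := closed_zero hG β hβ v
  unfold harmf
  have hsum : ∑ t, S.wt v t = 1 := M.prob_sum _ _
  rw [Sum.elim_inl]
  cases h : M.halt (S.stt v) with
  | some b =>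
    have e : ∀ t, S.tgt β v t = Sum.inr (Sum.inr b) := by
      intro t
      simp only [Suf.tgt, h]
    simp_rw [e, Sum.elim_inr]
    rw [← Finset.sum_mul, hsum, one_mul, accL_halt w _ _ b h]
    cases b <;> simp [hA]
  | none =>
    by_cases hk : β v = true
    · have e : ∀ t, S.tgt β v t = Sum.inr (Sum.inr false) := by
        intro t
        simp only [Suf.tgt, h, hk, if_true]
      simp_rw [e, Sum.elim_inr]
      rw [← Finset.sum_mul, hsum, one_mul, hz hk]
      simp [hA]
    · have e : ∀ t, S.tgt β v t = S.raw v t := by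
        intro t
        simp only [Suf.tgt, h, hk]
        rfl
      simp_rw [e]
      rw [accL_rec w _ _ h]
      refine Finset.sum_congr rfl (fun t _ => ?_)
      rw [tape_cols (hG.sm v)]
      rcases (M.prob_nonneg (S.stt v) (S.smb v) t).lt_or_eq with h0 | h0
      · obtain ⟨v', e1, e2, e3⟩ := inner_move hG v t h0
        rw [e1, Sum.elim_inl, e2, e3]
        rfl
      · unfold Suf.wt
        rw [← h0, zero_mul, zero_mul]

/-! ### The bad set -/

/-- a halting state can be reached within `n` steps of positive probability -/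
def GN (S : Suf M) : ℕ → S.V → Prop
  | 0, v => M.halt (S.stt v) ≠ none
  | n + 1, v => GN S n v ∨ ∃ t v', 0 < S.wt v t ∧ S.raw v t = Sum.inl v' ∧ GN S n v'

theorem exists_pos_forest {S : Suf M} {w : List Paren} (hG : Good S (cols w)) :
    ∃ β : S.V → Bool, S.Closed β ∧ ∃ c : S.V → M.Q × Move,
      Acyc (ff (S.tgt β) c) ∧ ∀ v, 0 < S.wt v (c v) := by
  classical
  refine ⟨fun v => decide (¬ ∃ n, GN S n v), ?_, ?_⟩
  · intro v hv
    simp only [decide_eq_true_eq] at hv
    refine ⟨?_, fun t ht => ?_⟩
    · by_contra hne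
      exact hv ⟨0, hne⟩
    · obtain ⟨v', e1, -, -⟩ := inner_move hG v t ht
      refine Or.inl ⟨v', e1, ?_⟩
      simp only [decide_eq_true_eq]
      rintro ⟨n, hn⟩
      exact hv ⟨n + 1, Or.inr ⟨t, v', ht, e1, hn⟩⟩
  · have hpos : ∀ v : S.V, ∃ t, 0 < S.wt v t := by
      intro v
      by_contra hcon
      push Not at hcon
      have h1 : ∑ t, S.wt v t = 1 := M.prob_sum _ _
      have h2 : ∑ t, S.wt v t ≤ 0 := Finset.sum_nonpos (fun t _ => hcon t)
      linarith
    have hch : ∀ v : S.V, ∃ t, 0 < S.wt v t ∧ (∀ hg : ∃ n, GN S n v, Nat.find hg ≠ 0 →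
        ∃ v' m, m < Nat.find hg ∧ S.raw v t = Sum.inl v' ∧ GN S m v') := by
      intro v
      by_cases hg : ∃ n, GN S n v
      · by_cases h0 : Nat.find hg = 0
        · obtain ⟨t, ht⟩ := hpos v
          exact ⟨t, ht, fun _ h => absurd h0 h⟩
        · obtain ⟨m, hm⟩ := Nat.exists_eq_succ_of_ne_zero h0
          have hs := Nat.find_spec hg
          rw [hm] at hs
          rcases hs with h1 | ⟨t, v', h1, h2, h3⟩
          · have := Nat.find_min' hg h1
            omega
          · exact ⟨t, h1, fun _ _ => ⟨v', m, by omega, h2, h3⟩⟩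
      · obtain ⟨t, ht⟩ := hpos v
        exact ⟨t, ht, fun h => absurd h hg⟩
    choose c hc1 hc2 using hch
    refine ⟨c, ?_, hc1⟩
    have hgood : ∀ n, ∀ v, GN S n v →
        ∃ e, Reach (ff (S.tgt (fun v => decide (¬ ∃ n, GN S n v))) c) (Sum.inl v) e := by
      intro n
      induction n using Nat.strong_induction_on with
      | _ n ih =>
        intro v hv
        have hg : ∃ n, GN S n v := ⟨n, hv⟩
        cases hh : M.halt (S.stt v) with
        | some b =>
          refine ⟨Sum.inr b, Reach.step _ _ ?_⟩
          have e : ff (S.tgt (fun v => decide (¬ ∃ n, GN S n v))) c v = Sum.inr (Sum.inr b) := by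
            simp only [ff, Suf.tgt, hh]
          rw [e]
          exact Reach.done _
        | none =>
          have h0 : Nat.find hg ≠ 0 := by
            intro h0
            have hs := Nat.find_spec hg
            rw [h0] at hs
            exact hs hh
          obtain ⟨v', m, hm, hr, hgm⟩ := hc2 v hg h0
          have hle := Nat.find_min' hg hv
          obtain ⟨e, he⟩ := ih m (by omega) v' hgm
          refine ⟨e, Reach.step _ _ ?_⟩
          have e1 : ff (S.tgt (fun v => decide (¬ ∃ n, GN S n v))) c v = Sum.inl v' := by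
            simp only [ff, Suf.tgt, hh]
            rw [if_neg (by simp only [decide_eq_true_eq, not_not]; exact hg), hr]
          rw [e1]
          exact he
    intro v
    by_cases hg : ∃ n, GN S n v
    · obtain ⟨n, hn⟩ := hg
      exact hgood n v hn
    · have hh : M.halt (S.stt v) = none := by
        by_contra hne
        exact hg ⟨0, hne⟩
      refine ⟨Sum.inr false, Reach.step _ _ ?_⟩
      have e1 : ff (S.tgt (fun v => decide (¬ ∃ n, GN S n v))) c v = Sum.inr (Sum.inr false) := by
        simp only [ff, Suf.tgt, hh]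
        rw [if_pos (by simp only [decide_eq_true_eq]; exact hg)]
      rw [e1]
      exact Reach.done _

/-! ### Summation over killed sets -/

open Classical in
theorem sum_F (S : Suf M) (H : M.Q ⊕ Bool → ℝ) (q0 : M.Q) :
    ∑ st : St M, H (st.1 q0) * S.F st =
      ∑ β : S.V → Bool, if S.Closed β then Gs (S.tgt β) S.wt H (S.enter q0) else 0 := by
  have e1 : ∀ d : S.V → Bool × (M.Q × Move),
      ∑ st : St M, H (st.1 q0) * (if S.Inv d st then ∏ v, S.wt v (d v).2 else 0) =
      if S.Closed (fun v => (d v).1) then
        (if Acyc (S.gr d) then (∏ v, S.wt v (d v).2) * val H (S.gr d) (S.enter q0) else 0)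
        else 0 := by
    intro d
    by_cases h1 : S.Closed (fun v => (d v).1)
    · by_cases h2 : Acyc (S.gr d)
      · obtain ⟨st, hst⟩ := Suf.exists_inv h1 h2
        rw [if_pos h1, if_pos h2, Finset.sum_eq_single st]
        · rw [if_pos hst, val_eq H (hst.2.2.1 q0), mul_comm]
        · intro st2 _ hne
          rw [if_neg (fun hi2 : S.Inv d st2 => hne (hi2.unique hst)), mul_zero]
        · intro hh; exact absurd (Finset.mem_univ _) hh
      · rw [if_pos h1, if_neg h2]
        refine Finset.sum_eq_zero (fun st _ => ?_)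
        rw [if_neg (fun hi : S.Inv d st => h2 hi.2.1), mul_zero]
    · rw [if_neg h1]
      refine Finset.sum_eq_zero (fun st _ => ?_)
      rw [if_neg (fun hi : S.Inv d st => h1 hi.1), mul_zero]
  have e2 : ∑ st : St M, H (st.1 q0) * S.F st =
      ∑ d : S.V → Bool × (M.Q × Move), if S.Closed (fun v => (d v).1) then
        (if Acyc (S.gr d) then (∏ v, S.wt v (d v).2) * val H (S.gr d) (S.enter q0) else 0)
        else 0 := by
    simp_rw [← e1]
    rw [Finset.sum_comm]
    refine Finset.sum_congr rfl (fun st _ => ?_)
    unfold Suf.F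
    rw [Finset.mul_sum]
  rw [e2, ← (Equiv.arrowProdEquivProdArrow S.V (fun _ => Bool) (fun _ => M.Q × Move)).symm.sum_comp,
    Fintype.sum_prod_type]
  refine Finset.sum_congr rfl (fun β _ => ?_)
  by_cases h1 : S.Closed β
  · rw [if_pos h1]
    unfold Gs
    refine Finset.sum_congr rfl (fun c _ => ?_)
    exact if_pos h1
  · rw [if_neg h1]
    refine Finset.sum_eq_zero (fun c _ => ?_)
    exact if_neg h1

end K9h4.PF
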