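import Mathlib

/-!
# The forest formula for absorbing Markov chains, at the level of labels
-/

open Finset

namespace K9h4.PF

section paths

variable {V E : Type*}

/-- Following `f` from `x` leads to the exit `e`. -/
inductive Reach (f : V → V ⊕ E) : V ⊕ E → E → Prop
  | done (e : E) : Reach f (Sum.inr e) e
  | step (v : V) (e : E) (h : Reach f (f v) e) : Reach f (Sum.inl v) e

/-- Following `f` from `x` leads to the exit `e` without meeting `v0`. -/
inductive ReachA (f : V → V ⊕ E) (v0 : V) : V ⊕ E → E → Prop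
  | done (e : E) : ReachA f v0 (Sum.inr e) e
  | step (v : V) (e : E) (hv : v ≠ v0) (h : ReachA f v0 (f v) e) : ReachA f v0 (Sum.inl v) e

/-- Every path leads to an exit. -/
def Acyc (f : V → V ⊕ E) : Prop := ∀ v, ∃ e, Reach f (Sum.inl v) e

theorem Reach.unique {f : V → V ⊕ E} {x : V ⊕ E} {e e' : E} (h : Reach f x e)
    (h' : Reach f x e') : e = e' := by
  induction h with
  | done e => cases h'; rfl
  | step v e _ ih => cases h' with
    | step _ _ h2 => exact ih h2

theorem Reach.inr_eq {f : V → V ⊕ E} {e e' : E} (h : Reach f (Sum.inr e) e') : e' = e := by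
  cases h; rfl

theorem Reach.inl_step {f : V → V ⊕ E} {v : V} {e : E} (h : Reach f (Sum.inl v) e) :
    Reach f (f v) e := by
  cases h with
  | step _ _ h => exact h

theorem ReachA.reach {f : V → V ⊕ E} {v0 : V} {x : V ⊕ E} {e : E} (h : ReachA f v0 x e) :
    Reach f x e := by
  induction h with
  | done e => exact Reach.done e
  | step v e _ _ ih => exact Reach.step v e ih

theorem ReachA.congr {f f' : V → V ⊕ E} {v0 : V} (hff : ∀ v, v ≠ v0 → f v = f' v)
    {x : V ⊕ E} {e : E} (h : ReachA f v0 x e) : ReachA f' v0 x e := by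
  induction h with
  | done e => exact ReachA.done e
  | step v e hv _ ih => exact ReachA.step v e hv (by rw [← hff v hv]; exact ih)

theorem Reach.avoid_or {f : V → V ⊕ E} (v0 : V) {x : V ⊕ E} {e : E} (h : Reach f x e) :
    ReachA f v0 x e ∨ Reach f (Sum.inl v0) e := by
  induction h with
  | done e => exact Or.inl (ReachA.done e)
  | step v e hr ih =>
    by_cases hv : v = v0
    · subst hv
      exact Or.inr (Reach.step _ _ hr)
    · rcases ih with ih | ih
      · exact Or.inl (ReachA.step v e hv ih)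
      · exact Or.inr ih

theorem Reach.last {f : V → V ⊕ E} (v0 : V) {x : V ⊕ E} {e : E} (h : Reach f x e) :
    ReachA f v0 x e ∨ ReachA f v0 (f v0) e := by
  induction h with
  | done e => exact Or.inl (ReachA.done e)
  | step v e hr ih =>
    by_cases hv : v = v0
    · subst hv
      rcases ih with ih | ih
      · exact Or.inr ih
      · exact Or.inr ih
    · rcases ih with ih | ih
      · exact Or.inl (ReachA.step v e hv ih)
      · exact Or.inr ih

theorem Reach.transfer {f f' : V → V ⊕ E} {v0 : V} (hff : ∀ v, v ≠ v0 → f v = f' v)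
    {e0 : E} (h0 : Reach f' (Sum.inl v0) e0) {x : V ⊕ E} {e : E} (h : Reach f x e) :
    ∃ e', Reach f' x e' := by
  induction h with
  | done e => exact ⟨e, Reach.done e⟩
  | step v e _ ih =>
    by_cases hv : v = v0
    · subst hv
      exact ⟨e0, h0⟩
    · obtain ⟨e', he'⟩ := ih
      exact ⟨e', Reach.step v e' (by rw [← hff v hv]; exact he')⟩

open Classical in
/-- the value of `H` at the exit reached from `x` -/
noncomputable def val (H : E → ℝ) (f : V → V ⊕ E) (x : V ⊕ E) : ℝ :=
  if h : ∃ e, Reach f x e then H h.choose else 0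

theorem val_eq (H : E → ℝ) {f : V → V ⊕ E} {x : V ⊕ E} {e : E} (h : Reach f x e) :
    val H f x = H e := by
  unfold val
  have hex : ∃ e, Reach f x e := ⟨e, h⟩
  rw [dif_pos hex]
  rw [Reach.unique hex.choose_spec h]

end paths

section forest

variable {V T E : Type*} [Fintype V] [DecidableEq V] [Fintype T] [DecidableEq T]

/-- the functional graph of a labelling -/
def ff (tgt : V → T → V ⊕ E) (c : V → T) : V → V ⊕ E := fun v => tgt v (c v)

variable (tgt : V → T → V ⊕ E) (p : V → T → ℝ)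

open Classical in
/-- forest sum weighted by the value at the exit -/
noncomputable def Gs (H : E → ℝ) (x : V ⊕ E) : ℝ :=
  ∑ c : V → T, if Acyc (ff tgt c) then (∏ v, p v (c v)) * val H (ff tgt c) x else 0

open Classical in
/-- total forest sum -/
noncomputable def Zs : ℝ := ∑ c : V → T, if Acyc (ff tgt c) then (∏ v, p v (c v)) else 0

open Classical in
/-- the exchange involution -/
noncomputable def exch (v0 : V) (x : (V → T) × T) : (V → T) × T :=
  if Acyc (ff tgt x.1) ∧ ∃ e, ReachA (ff tgt x.1) v0 (tgt v0 x.2) e then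
    (Function.update x.1 v0 x.2, x.1 v0) else x

variable {tgt}

omit [Fintype V] [Fintype T] [DecidableEq T] in
theorem ff_update_ne (c : V → T) (v0 : V) (t : T) (v : V) (hv : v ≠ v0) :
    ff tgt c v = ff tgt (Function.update c v0 t) v := by
  simp [ff, Function.update_of_ne hv]

omit [Fintype V] [Fintype T] [DecidableEq T] in
theorem ff_update_self (c : V → T) (v0 : V) (t : T) :
    ff tgt (Function.update c v0 t) v0 = tgt v0 t := by
  simp [ff]

omit [Fintype V] [Fintype T] [DecidableEq T] in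
theorem exch_facts {v0 : V} {c : V → T} {t : T} (hA : Acyc (ff tgt c)) {e : E}
    (hR : ReachA (ff tgt c) v0 (tgt v0 t) e) :
    Reach (ff tgt (Function.update c v0 t)) (Sum.inl v0) e ∧
    Acyc (ff tgt (Function.update c v0 t)) ∧
    ∃ e', ReachA (ff tgt (Function.update c v0 t)) v0 (tgt v0 (c v0)) e' := by
  have hcongr := ff_update_ne (tgt := tgt) c v0 t
  have h1 : Reach (ff tgt (Function.update c v0 t)) (Sum.inl v0) e := by
    refine Reach.step _ _ ?_
    rw [ff_update_self]
    exact (hR.congr hcongr).reach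
  refine ⟨h1, ?_, ?_⟩
  · intro v
    obtain ⟨e', he'⟩ := hA v
    exact Reach.transfer hcongr h1 he'
  · obtain ⟨e', he'⟩ := hA v0
    have h2 := he'.inl_step
    have h3 : ReachA (ff tgt c) v0 (ff tgt c v0) e' := by
      rcases h2.last v0 with h | h <;> exact h
    exact ⟨e', h3.congr hcongr⟩

omit [Fintype V] [Fintype T] [DecidableEq T] in
theorem exch_involutive (v0 : V) : Function.Involutive (exch tgt v0) := by
  intro x
  obtain ⟨c, t⟩ := x
  by_cases h : Acyc (ff tgt c) ∧ ∃ e, ReachA (ff tgt c) v0 (tgt v0 t) e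
  · obtain ⟨hA, e, hR⟩ := h
    obtain ⟨h1, h2, e', h3⟩ := exch_facts hA hR
    have e1 : exch tgt v0 (c, t) = (Function.update c v0 t, c v0) := by
      unfold exch
      rw [if_pos ⟨hA, e, hR⟩]
    rw [e1]
    unfold exch
    rw [if_pos ⟨h2, e', h3⟩]
    simp
  · have e1 : exch tgt v0 (c, t) = (c, t) := by
      unfold exch
      rw [if_neg h]
    rw [e1, e1]

theorem prod_update (c : V → T) (v0 : V) (t : T) :
    p v0 (c v0) * ∏ v, p v (Function.update c v0 t v) = p v0 t * ∏ v, p v (c v) := by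
  rw [← Finset.mul_prod_erase Finset.univ (fun v => p v (Function.update c v0 t v))
    (Finset.mem_univ v0), ← Finset.mul_prod_erase Finset.univ (fun v => p v (c v))
    (Finset.mem_univ v0)]
  have h1 : ∏ x ∈ Finset.univ.erase v0, p x (Function.update c v0 t x) =
      ∏ x ∈ Finset.univ.erase v0, p x (c x) := by
    refine Finset.prod_congr rfl (fun x hx => ?_)
    rw [Function.update_of_ne (Finset.ne_of_mem_erase hx)]
  rw [h1]
  simp only [Function.update_self]
  ring

theorem Gs_harmonic (H : E → ℝ) (v0 : V) :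
    ∑ t, p v0 t * Gs tgt p H (tgt v0 t) = (∑ t, p v0 t) * Gs tgt p H (Sum.inl v0) := by
  classical
  unfold Gs
  have hL : ∑ t, p v0 t * (∑ c : V → T, if Acyc (ff tgt c) then
      (∏ v, p v (c v)) * val H (ff tgt c) (tgt v0 t) else 0) =
      ∑ x : (V → T) × T, p v0 x.2 * (if Acyc (ff tgt x.1) then
      (∏ v, p v (x.1 v)) * val H (ff tgt x.1) (tgt v0 x.2) else 0) := by
    rw [Fintype.sum_prod_type_right]
    refine Finset.sum_congr rfl (fun t _ => ?_)
    rw [Finset.mul_sum]
  have hR : (∑ t, p v0 t) * (∑ c : V → T, if Acyc (ff tgt c) then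
      (∏ v, p v (c v)) * val H (ff tgt c) (Sum.inl v0) else 0) =
      ∑ x : (V → T) × T, p v0 x.2 * (if Acyc (ff tgt x.1) then
      (∏ v, p v (x.1 v)) * val H (ff tgt x.1) (Sum.inl v0) else 0) := by
    rw [Fintype.sum_prod_type_right, Finset.sum_mul]
    refine Finset.sum_congr rfl (fun t _ => ?_)
    rw [Finset.mul_sum]
  obtain ⟨tR, htR⟩ : ∃ tR : (V → T) × T → ℝ, tR = fun x => p v0 x.2 *
      (if Acyc (ff tgt x.1) then (∏ v, p v (x.1 v)) * val H (ff tgt x.1) (Sum.inl v0) else 0) :=
    ⟨_, rfl⟩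
  have hR' : ∑ x : (V → T) × T, p v0 x.2 * (if Acyc (ff tgt x.1) then
      (∏ v, p v (x.1 v)) * val H (ff tgt x.1) (Sum.inl v0) else 0) = ∑ x, tR x := by
    rw [htR]
  rw [hL, hR, hR', ← Equiv.sum_comp (Function.Involutive.toPerm _
    (exch_involutive (tgt := tgt) v0)) tR]
  refine Finset.sum_congr rfl (fun x _ => ?_)
  obtain ⟨c, t⟩ := x
  simp only [Function.Involutive.coe_toPerm]
  by_cases h : Acyc (ff tgt c) ∧ ∃ e, ReachA (ff tgt c) v0 (tgt v0 t) e
  · obtain ⟨hA, e, hR⟩ := h
    obtain ⟨h1, h2, e', h3⟩ := exch_facts hA hR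
    have e1 : exch tgt v0 (c, t) = (Function.update c v0 t, c v0) := by
      unfold exch
      rw [if_pos ⟨hA, e, hR⟩]
    rw [e1, htR]
    simp only
    rw [if_pos hA, if_pos h2, val_eq H hR.reach, val_eq H h1, ← mul_assoc, ← mul_assoc,
      prod_update]
  · have e1 : exch tgt v0 (c, t) = (c, t) := by
      unfold exch
      rw [if_neg h]
    rw [e1, htR]
    simp only
    by_cases hA : Acyc (ff tgt c)
    · rw [if_pos hA, if_pos hA]
      have hno : ¬ ∃ e, ReachA (ff tgt c) v0 (tgt v0 t) e := fun hh => h ⟨hA, hh⟩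
      obtain ⟨e, he⟩ : ∃ e, Reach (ff tgt c) (tgt v0 t) e := by
        cases hx : tgt v0 t with
        | inl v => exact hA v
        | inr e => exact ⟨e, Reach.done e⟩
      rcases he.avoid_or v0 with h4 | h4
      · exact absurd ⟨e, h4⟩ hno
      · rw [val_eq H he, val_eq H h4]
    · rw [if_neg hA, if_neg hA]

/-- maximum principle -/
theorem max_principle (hp : ∀ v t, 0 ≤ p v t) (hp1 : ∀ v, ∑ t, p v t = 1)
    {c : V → T} (hc : ∀ v, 0 < p v (c v)) (hA : Acyc (ff tgt c)) (D : V ⊕ E → ℝ)
    (hD0 : ∀ e, D (Sum.inr e) = 0) (hD : ∀ v, ∑ t, p v t * D (tgt v t) = D (Sum.inl v)) :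
    ∀ x, D x = 0 := by
  have key : ∀ v, D (Sum.inl v) = 0 := by
    by_contra hcon
    push Not at hcon
    obtain ⟨v1, hv1⟩ := hcon
    have : Nonempty V := ⟨v1⟩
    obtain ⟨v0, hv0⟩ := Finite.exists_max (fun v => |D (Sum.inl v)|)
    set m := |D (Sum.inl v0)| with hm
    have hmpos : 0 < m := lt_of_lt_of_le (abs_pos.2 hv1) (hv0 v1)
    have hle : ∀ x, |D x| ≤ m := by
      intro x
      cases x with
      | inl v => exact hv0 v
      | inr e => rw [hD0, abs_zero]; exact hmpos.le
    have hstep : ∀ v, |D (Sum.inl v)| = m → |D (tgt v (c v))| = m := by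
      intro v hv
      refine le_antisymm (hle _) ?_
      by_contra hlt
      push Not at hlt
      have h1 : m < m := by
        calc m = |D (Sum.inl v)| := hv.symm
          _ = |∑ t, p v t * D (tgt v t)| := by rw [hD]
          _ ≤ ∑ t, |p v t * D (tgt v t)| := Finset.abs_sum_le_sum_abs _ _
          _ = ∑ t, p v t * |D (tgt v t)| := by
              refine Finset.sum_congr rfl (fun t _ => ?_)
              rw [abs_mul, abs_of_nonneg (hp v t)]
          _ < ∑ t, p v t * m := by
              refine Finset.sum_lt_sum (fun t _ => mul_le_mul_of_nonneg_left (hle _) (hp v t))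
                ⟨c v, Finset.mem_univ _, mul_lt_mul_of_pos_left hlt (hc v)⟩
          _ = m := by rw [← Finset.sum_mul, hp1, one_mul]
      exact lt_irrefl _ h1
    have hpath : ∀ x e, Reach (ff tgt c) x e → |D x| = m → m = 0 := by
      intro x e h
      induction h with
      | done e => intro h2; rw [hD0, abs_zero] at h2; exact h2.symm
      | step v e _ ih => intro h2; exact ih (hstep v h2)
    obtain ⟨e, he⟩ := hA v0
    have := hpath _ _ he rfl
    linarith
  intro x
  cases x with
  | inl v => exact key v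
  | inr e => exact hD0 e

/-- **Forest formula.** -/
theorem forest_formula (hp : ∀ v t, 0 ≤ p v t) (hp1 : ∀ v, ∑ t, p v t = 1)
    (h : V ⊕ E → ℝ) (hh : ∀ v, ∑ t, p v t * h (tgt v t) = h (Sum.inl v)) (x : V ⊕ E) :
    Gs tgt p (fun e => h (Sum.inr e)) x = Zs tgt p * h x := by
  classical
  have hW : ∀ c : V → T, 0 ≤ (if Acyc (ff tgt c) then (∏ v, p v (c v)) else 0) := by
    intro c
    split_ifs
    · exact Finset.prod_nonneg (fun v _ => hp v _)
    · exact le_rfl
  by_cases hZ : ∃ c : V → T, Acyc (ff tgt c) ∧ 0 < ∏ v, p v (c v)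
  · obtain ⟨c, hA, hpos⟩ := hZ
    have hc : ∀ v, 0 < p v (c v) := by
      intro v
      refine lt_of_le_of_ne (hp v _) (fun h0 => ?_)
      rw [Finset.prod_eq_zero (Finset.mem_univ v) h0.symm] at hpos
      exact lt_irrefl _ hpos
    have hb : ∀ e, Gs tgt p (fun e => h (Sum.inr e)) (Sum.inr e) - Zs tgt p * h (Sum.inr e) = 0 := by
      intro e
      unfold Gs Zs
      rw [Finset.sum_mul, ← Finset.sum_sub_distrib]
      refine Finset.sum_eq_zero (fun c' _ => ?_)
      by_cases hA' : Acyc (ff tgt c')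
      · rw [if_pos hA', if_pos hA', val_eq _ (Reach.done e)]
        ring
      · rw [if_neg hA', if_neg hA']
        ring
    have hi : ∀ v, ∑ t, p v t * (Gs tgt p (fun e => h (Sum.inr e)) (tgt v t) -
        Zs tgt p * h (tgt v t)) =
        Gs tgt p (fun e => h (Sum.inr e)) (Sum.inl v) - Zs tgt p * h (Sum.inl v) := by
      intro v
      simp only [mul_sub, Finset.sum_sub_distrib]
      rw [Gs_harmonic, hp1, one_mul]
      congr 1
      rw [← hh v, Finset.mul_sum]
      refine Finset.sum_congr rfl (fun t _ => ?_)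
      ring
    have := max_principle (tgt := tgt) p hp hp1 hc hA
      (fun x => Gs tgt p (fun e => h (Sum.inr e)) x - Zs tgt p * h x) hb hi x
    linarith
  · push Not at hZ
    have h0 : ∀ c : V → T, Acyc (ff tgt c) → ∏ v, p v (c v) = 0 := fun c hA =>
      le_antisymm (hZ c hA) (Finset.prod_nonneg (fun v _ => hp v _))
    have e1 : Zs tgt p = 0 := by
      unfold Zs
      refine Finset.sum_eq_zero (fun c _ => ?_)
      split_ifs with hA
      · exact h0 c hA
      · rfl
    rw [e1, zero_mul]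
    unfold Gs
    refine Finset.sum_eq_zero (fun c _ => ?_)
    split_ifs with hA
    · rw [h0 c hA, zero_mul]
    · rfl

end forest

section elim

/-! ### Elimination of the columns to the right -/

variable {V1 Q : Type*}

/-- lift targets of the suffix to targets of the longer suffix -/
def lft : V1 ⊕ (Q ⊕ Bool) → (Q ⊕ V1) ⊕ (Q ⊕ Bool)
  | Sum.inl v => Sum.inl (Sum.inr v)
  | Sum.inr (Sum.inl q) => Sum.inl (Sum.inl q)
  | Sum.inr (Sum.inr b) => Sum.inr (Sum.inr b)

/-- an exit of the suffix seen from the new first column -/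
def clp : Q ⊕ Bool → Q ⊕ (Q ⊕ Bool)
  | Sum.inl q => Sum.inl q
  | Sum.inr b => Sum.inr (Sum.inr b)

/-- embedding of the column graph -/
def emb : Q ⊕ (Q ⊕ Bool) → (Q ⊕ V1) ⊕ (Q ⊕ Bool)
  | Sum.inl q => Sum.inl (Sum.inl q)
  | Sum.inr e => Sum.inr e

/-- resolution through the suffix -/
inductive Res (f : Q ⊕ V1 → (Q ⊕ V1) ⊕ (Q ⊕ Bool)) :
    (Q ⊕ V1) ⊕ (Q ⊕ Bool) → Q ⊕ (Q ⊕ Bool) → Prop
  | exit (e) : Res f (Sum.inr e) (Sum.inr e)
  | col (q) : Res f (Sum.inl (Sum.inl q)) (Sum.inl q)
  | step (v : V1) (y) (h : Res f (f (Sum.inr v)) y) : Res f (Sum.inl (Sum.inr v)) y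

variable {f : Q ⊕ V1 → (Q ⊕ V1) ⊕ (Q ⊕ Bool)} {f1 : V1 → V1 ⊕ (Q ⊕ Bool)}
  {h : Q → Q ⊕ (Q ⊕ Bool)}

theorem res_of_reach (hf1 : ∀ v, f (Sum.inr v) = lft (f1 v)) {z : V1 ⊕ (Q ⊕ Bool)} {e1 : Q ⊕ Bool}
    (hz : Reach f1 z e1) : Res f (lft z) (clp e1) := by
  induction hz with
  | done e =>
    cases e with
    | inl q => exact Res.col q
    | inr b => exact Res.exit _
  | step v e _ ih => exact Res.step v _ (by rw [hf1]; exact ih)

theorem Res.back {x : (Q ⊕ V1) ⊕ (Q ⊕ Bool)} {y : Q ⊕ (Q ⊕ Bool)} (hr : Res f x y)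
    {e : Q ⊕ Bool} (he : Reach f (emb y) e) : Reach f x e := by
  induction hr with
  | exit e' => exact he
  | col q => exact he
  | step v y _ ih => exact Reach.step _ _ (ih he)

theorem reach_emb (hres : ∀ q, Res f (f (Sum.inl q)) (h q)) {y : Q ⊕ (Q ⊕ Bool)} {e : Q ⊕ Bool}
    (hy : Reach h y e) : Reach f (emb y) e := by
  induction hy with
  | done e => exact Reach.done e
  | step q e _ ih => exact Reach.step _ _ ((hres q).back ih)

theorem reach_col (hres : ∀ q, Res f (f (Sum.inl q)) (h q)) {x : (Q ⊕ V1) ⊕ (Q ⊕ Bool)}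
    {e : Q ⊕ Bool} (hx : Reach f x e) : ∀ y, Res f x y → Reach h y e := by
  induction hx with
  | done e =>
    intro y hy
    cases hy
    exact Reach.done e
  | step u e _ ih =>
    intro y hy
    cases u with
    | inl q =>
      cases hy
      exact Reach.step _ _ (ih _ (hres q))
    | inr v =>
      cases hy with
      | step _ _ h2 => exact ih _ h2

theorem reach_suffix (hf1 : ∀ v, f (Sum.inr v) = lft (f1 v)) {x : (Q ⊕ V1) ⊕ (Q ⊕ Bool)}
    {e : Q ⊕ Bool} (hx : Reach f x e) : ∀ z, x = lft z → ∃ e1, Reach f1 z e1 := by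
  induction hx with
  | done e =>
    intro z hz
    cases z with
    | inl v => simp [lft] at hz
    | inr e' => exact ⟨e', Reach.done e'⟩
  | step u e _ ih =>
    intro z hz
    cases z with
    | inl v =>
      simp only [lft, Sum.inl.injEq] at hz
      subst hz
      obtain ⟨e1, he1⟩ := ih (f1 v) (hf1 v)
      exact ⟨e1, Reach.step _ _ he1⟩
    | inr e' => exact ⟨e', Reach.done e'⟩

theorem acyc_suffix (hf1 : ∀ v, f (Sum.inr v) = lft (f1 v)) (hA : Acyc f) : Acyc f1 := by
  intro v
  obtain ⟨e, he⟩ := hA (Sum.inr v)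
  exact reach_suffix hf1 he (Sum.inl v) rfl

theorem acyc_col (hres : ∀ q, Res f (f (Sum.inl q)) (h q)) (hA : Acyc f) : Acyc h := by
  intro q
  obtain ⟨e, he⟩ := hA (Sum.inl q)
  exact ⟨e, reach_col hres he _ (Res.col q)⟩

theorem acyc_of (hf1 : ∀ v, f (Sum.inr v) = lft (f1 v))
    (hres : ∀ q, Res f (f (Sum.inl q)) (h q)) (hA1 : Acyc f1) (hAh : Acyc h) : Acyc f := by
  intro u
  cases u with
  | inl q =>
    obtain ⟨e, he⟩ := hAh q
    exact ⟨e, reach_emb hres he⟩
  | inr v =>
    obtain ⟨e1, he1⟩ := hA1 v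
    have h1 := res_of_reach hf1 he1
    obtain ⟨e, he⟩ : ∃ e, Reach h (clp e1) e := by
      cases e1 with
      | inl q => exact hAh q
      | inr b => exact ⟨_, Reach.done _⟩
    exact ⟨e, h1.back (reach_emb hres he)⟩

end elim

end K9h4.PF
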