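import Mathlib

/-!
# Linear algebra core for the theorem that balanced parentheses are not in 2-PFA

All statements here are about nonnegative matrices.
-/

open Matrix Filter Topology Finset

namespace K9h4.PF

variable {J : Type*} [Fintype J] [DecidableEq J]

/-- A closed convex cone stable under the matrix `x`. -/
structure StCone (x : Matrix J J ℝ) (C : Set (J → ℝ)) : Prop where
  closed : IsClosed C
  smul : ∀ v ∈ C, ∀ c : ℝ, 0 ≤ c → c • v ∈ C
  add : ∀ v ∈ C, ∀ w ∈ C, v + w ∈ C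
  stab : ∀ v ∈ C, x *ᵥ v ∈ C

theorem StCone.sum {x : Matrix J J ℝ} {C : Set (J → ℝ)} (hC : StCone x C)
    {ι : Type*} (s : Finset ι) (f : ι → J → ℝ) (h0 : (0 : J → ℝ) ∈ C)
    (hf : ∀ i ∈ s, f i ∈ C) : ∑ i ∈ s, f i ∈ C := by
  classical
  induction s using Finset.induction_on with
  | empty => simpa using h0
  | insert a s ha ih =>
    rw [Finset.sum_insert ha]
    exact hC.add _ (hf a (Finset.mem_insert_self _ _)) _
      (ih (fun i hi => hf i (Finset.mem_insert_of_mem hi)))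

theorem StCone.pow {x : Matrix J J ℝ} {C : Set (J → ℝ)} (hC : StCone x C)
    {v : J → ℝ} (hv : v ∈ C) (m : ℕ) : (x ^ m) *ᵥ v ∈ C := by
  induction m with
  | zero => simpa using hv
  | succ m ih =>
    rw [pow_succ', ← Matrix.mulVec_mulVec]
    exact hC.stab _ ih

section growth

variable (x : Matrix J J ℝ)

/-- sum of all entries of `x ^ m` -/
noncomputable def csum (m : ℕ) : ℝ := ∑ i, ∑ j, (x ^ m) i j

variable {x}

theorem pow_nonneg_entries (hnn : ∀ i j, 0 ≤ x i j) (m : ℕ) : ∀ i j, 0 ≤ (x ^ m) i j := by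
  induction m with
  | zero =>
    intro i j
    rw [pow_zero, Matrix.one_apply]
    split_ifs <;> norm_num
  | succ m ih =>
    intro i j
    rw [pow_succ', Matrix.mul_apply]
    exact Finset.sum_nonneg (fun k _ => mul_nonneg (hnn i k) (ih k j))

theorem csum_add_le (hnn : ∀ i j, 0 ≤ x i j) (m n : ℕ) :
    csum x (m + n) ≤ csum x m * csum x n := by
  unfold csum
  have h1 : ∀ i, ∑ j, (x ^ (m + n)) i j = ∑ k, (x ^ m) i k * ∑ j, (x ^ n) k j := by
    intro i
    simp_rw [pow_add, Matrix.mul_apply, Finset.mul_sum]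
    rw [Finset.sum_comm]
  simp_rw [h1]
  rw [Finset.sum_mul]
  refine Finset.sum_le_sum (fun i _ => ?_)
  rw [Finset.sum_mul]
  refine Finset.sum_le_sum (fun k _ => ?_)
  refine mul_le_mul_of_nonneg_left ?_ (pow_nonneg_entries hnn m i k)
  exact Finset.single_le_sum (f := fun k => ∑ j, (x ^ n) k j)
    (fun i _ => Finset.sum_nonneg (fun j _ => pow_nonneg_entries hnn n i j)) (Finset.mem_univ k)

theorem entry_le_csum (hnn : ∀ i j, 0 ≤ x i j) (m : ℕ) (i j : J) :
    (x ^ m) i j ≤ csum x m := by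
  unfold csum
  refine le_trans ?_ (Finset.single_le_sum (f := fun k => ∑ j, (x ^ m) k j)
    (fun i _ => Finset.sum_nonneg (fun j _ => pow_nonneg_entries hnn m i j)) (Finset.mem_univ i))
  exact Finset.single_le_sum (f := fun j => (x ^ m) i j)
    (fun j _ => pow_nonneg_entries hnn m i j) (Finset.mem_univ j)

theorem row_lower [Nonempty J] (hnn : ∀ i j, 0 ≤ x i j) (hrow : ∀ i, ∃ j, 0 < x i j) :
    ∃ δ : ℝ, 0 < δ ∧ ∀ m i, δ ^ m ≤ ∑ j, (x ^ m) i j := by
  have hpos : ∀ i, 0 < ∑ j, x i j := by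
    intro i
    obtain ⟨j, hj⟩ := hrow i
    exact Finset.sum_pos' (fun j _ => hnn i j) ⟨j, Finset.mem_univ j, hj⟩
  obtain ⟨i0, hi0⟩ := Finite.exists_min (fun i => ∑ j, x i j)
  refine ⟨∑ j, x i0 j, hpos i0, ?_⟩
  intro m
  induction m with
  | zero => intro i; simp [Matrix.one_apply]
  | succ m ih =>
    intro i
    have h1 : ∑ j, (x ^ (m + 1)) i j = ∑ k, x i k * ∑ j, (x ^ m) k j := by
      simp_rw [pow_succ', Matrix.mul_apply, Finset.mul_sum]
      rw [Finset.sum_comm]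
    rw [h1, pow_succ']
    calc (∑ j, x i0 j) * (∑ j, x i0 j) ^ m ≤ (∑ k, x i k) * (∑ j, x i0 j) ^ m :=
          mul_le_mul_of_nonneg_right (hi0 i) (pow_nonneg (hpos i0).le _)
      _ = ∑ k, x i k * (∑ j, x i0 j) ^ m := by rw [Finset.sum_mul]
      _ ≤ _ := Finset.sum_le_sum (fun k _ => mul_le_mul_of_nonneg_left (ih k) (hnn i k))

theorem growth_rate [Nonempty J] (hnn : ∀ i j, 0 ≤ x i j) (hrow : ∀ i, ∃ j, 0 < x i j) :
    ∃ ρ : ℝ, 0 < ρ ∧ (∀ m, ρ ^ m ≤ csum x m) ∧
      ∀ t : ℝ, 0 < t → t * ρ < 1 → Summable (fun m => t ^ m * csum x m) := by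
  obtain ⟨δ, hδ, hlow⟩ := row_lower hnn hrow
  have hc : ∀ m, δ ^ m ≤ csum x m := by
    intro m
    unfold csum
    obtain ⟨i0⟩ := ‹Nonempty J›
    refine le_trans (hlow m i0) ?_
    exact Finset.single_le_sum (f := fun k => ∑ j, (x ^ m) k j)
      (fun i _ => Finset.sum_nonneg (fun j _ => pow_nonneg_entries hnn m i j)) (Finset.mem_univ i0)
  have hcpos : ∀ m, 0 < csum x m := fun m => lt_of_lt_of_le (pow_pos hδ m) (hc m)
  have hsub : Subadditive (fun m => Real.log (csum x m)) := by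
    intro m n
    simp only
    rw [← Real.log_mul (hcpos m).ne' (hcpos n).ne']
    exact Real.log_le_log (hcpos _) (csum_add_le hnn m n)
  have hbdd : BddBelow (Set.range fun n => Real.log (csum x n) / (n : ℝ)) := by
    refine ⟨min 0 (Real.log δ), ?_⟩
    rintro y ⟨n, rfl⟩
    rcases Nat.eq_zero_or_pos n with h | h
    · subst h
      simp
    · simp only
      have hn : (0 : ℝ) < n := by exact_mod_cast h
      refine le_trans (min_le_right _ _) ?_
      rw [le_div_iff₀ hn]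
      have := Real.log_le_log (pow_pos hδ n) (hc n)
      rw [Real.log_pow] at this
      linarith
  have hlim := hsub.tendsto_lim hbdd
  refine ⟨Real.exp hsub.lim, Real.exp_pos _, ?_, ?_⟩
  · intro m
    rcases Nat.eq_zero_or_pos m with h | h
    · subst h
      simpa using hc 0
    · have hn : (0 : ℝ) < m := by exact_mod_cast h
      have h1 := hsub.lim_le_div hbdd (n := m) h.ne'
      rw [le_div_iff₀ hn] at h1
      rw [← Real.exp_nat_mul, ← Real.le_log_iff_exp_le (hcpos m)]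
      linarith
  · intro t ht htρ
    have h1 : hsub.lim < - Real.log t := by
      have := Real.log_lt_log (mul_pos ht (Real.exp_pos _)) htρ
      rw [Real.log_mul ht.ne' (Real.exp_pos _).ne', Real.log_exp, Real.log_one] at this
      linarith
    obtain ⟨s, hs1, hs2⟩ := exists_between h1
    have hev : ∀ᶠ n : ℕ in atTop, Real.log (csum x n) / (n : ℝ) < s :=
      hlim.eventually_lt_const hs1
    have hr : t * Real.exp s < 1 := by
      rw [← Real.log_neg_iff (mul_pos ht (Real.exp_pos _)), Real.log_mul ht.ne' (Real.exp_pos _).ne',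
        Real.log_exp]
      linarith
    have hgeo : Summable (fun n : ℕ => (t * Real.exp s) ^ n) :=
      summable_geometric_of_lt_one (mul_pos ht (Real.exp_pos _)).le hr
    refine Summable.of_norm_bounded_eventually_nat hgeo ?_
    filter_upwards [hev, eventually_gt_atTop 0] with n hn hn0
    have hn' : (0 : ℝ) < n := by exact_mod_cast hn0
    rw [div_lt_iff₀ hn'] at hn
    have h2 : csum x n ≤ Real.exp s ^ n := by
      rw [← Real.exp_nat_mul, ← Real.log_le_iff_le_exp (hcpos n)]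
      linarith
    rw [Real.norm_of_nonneg (mul_nonneg (pow_nonneg ht.le _) (hcpos n).le), mul_pow]
    exact mul_le_mul_of_nonneg_left h2 (pow_nonneg ht.le _)

theorem exists_resolvent [Nonempty J] (hnn : ∀ i j, 0 ≤ x i j) (hrow : ∀ i, ∃ j, 0 < x i j) :
    ∃ ρ : ℝ, 0 < ρ ∧ ∀ t : ℝ, 0 < t → t * ρ < 1 → ∃ A : Matrix J J ℝ,
      (∀ i j, 0 ≤ A i j) ∧ A = 1 + t • (x * A) ∧ A = 1 + t • (A * x) ∧
      (∀ C, StCone x C → ∀ v ∈ C, A *ᵥ v ∈ C) ∧ (1 - t * ρ)⁻¹ ≤ ∑ i, ∑ j, A i j := by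
  obtain ⟨ρ, hρ, hlow, hsum⟩ := growth_rate hnn hrow
  refine ⟨ρ, hρ, ?_⟩
  intro t ht htρ
  have hS := hsum t ht htρ
  have hent : ∀ i j, Summable (fun m => t ^ m * (x ^ m) i j) := by
    intro i j
    refine Summable.of_nonneg_of_le (fun m => mul_nonneg (pow_nonneg ht.le _)
      (pow_nonneg_entries hnn m i j)) (fun m => ?_) hS
    exact mul_le_mul_of_nonneg_left (entry_le_csum hnn m i j) (pow_nonneg ht.le _)
  have hsm : Summable (fun m => t ^ m • x ^ m) := by
    refine Pi.summable.2 (fun i => Pi.summable.2 (fun j => ?_))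
    simpa [Matrix.smul_apply] using hent i j
  obtain ⟨A, hA⟩ := hsm
  have hAent : ∀ i j, HasSum (fun m => t ^ m * (x ^ m) i j) (A i j) := by
    intro i j
    have := Pi.hasSum.1 (Pi.hasSum.1 hA i) j
    simpa [Matrix.smul_apply] using this
  have hA1 : HasSum (fun m => t ^ (m + 1) • x ^ (m + 1)) (A - 1) := by
    have := (hasSum_nat_add_iff' (f := fun m => t ^ m • x ^ m) 1).2 hA
    simpa using this
  refine ⟨A, ?_, ?_, ?_, ?_, ?_⟩
  · intro i j
    exact (hAent i j).nonneg (fun m => mul_nonneg (pow_nonneg ht.le _)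
      (pow_nonneg_entries hnn m i j))
  · have h2 : HasSum (fun m => t • (x * (t ^ m • x ^ m))) (t • (x * A)) :=
      (hA.mul_left x).const_smul t
    have h3 : (fun m => t • (x * (t ^ m • x ^ m))) = fun m => t ^ (m + 1) • x ^ (m + 1) := by
      funext m
      rw [Matrix.mul_smul, smul_smul, ← pow_succ', ← pow_succ']
    rw [h3] at h2
    have := hA1.unique h2
    rw [← this]; abel
  · have h2 : HasSum (fun m => t • ((t ^ m • x ^ m) * x)) (t • (A * x)) :=
      (hA.mul_right x).const_smul t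
    have h3 : (fun m => t • ((t ^ m • x ^ m) * x)) = fun m => t ^ (m + 1) • x ^ (m + 1) := by
      funext m
      rw [Matrix.smul_mul, smul_smul, ← pow_succ', ← pow_succ]
    rw [h3] at h2
    have := hA1.unique h2
    rw [← this]; abel
  · intro C hC v hv
    have h0 : (0 : J → ℝ) ∈ C := by simpa using hC.smul v hv 0 le_rfl
    have hcont : Continuous (fun M : Matrix J J ℝ => M *ᵥ v) :=
      continuous_id.matrix_mulVec continuous_const
    have h1 := (hcont.tendsto A).comp hA.tendsto_sum_nat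
    refine hC.closed.mem_of_tendsto h1 (Eventually.of_forall (fun n => ?_))
    simp only [Function.comp]
    rw [Matrix.sum_mulVec]
    refine hC.sum _ _ h0 (fun m _ => ?_)
    rw [Matrix.smul_mulVec]
    exact hC.smul _ (hC.pow hv m) _ (pow_nonneg ht.le _)
  · have h1 : HasSum (fun m => t ^ m * csum x m) (∑ i, ∑ j, A i j) := by
      have := hasSum_sum (s := Finset.univ) (fun i (_ : i ∈ Finset.univ) =>
        hasSum_sum (s := Finset.univ) (fun j (_ : j ∈ Finset.univ) => hAent i j))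
      have h3 : (fun m => t ^ m * csum x m) = fun m => ∑ i, ∑ j, t ^ m * (x ^ m) i j := by
        funext m
        unfold csum
        simp_rw [Finset.mul_sum]
      rw [h3]
      exact this
    have h2 : HasSum (fun m => (t * ρ) ^ m) (1 - t * ρ)⁻¹ :=
      hasSum_geometric_of_lt_one (mul_pos ht hρ).le htρ
    refine hasSum_le (fun m => ?_) h2 h1
    rw [mul_pow]
    exact mul_le_mul_of_nonneg_left (hlow m) (pow_nonneg ht.le _)

end growth

section extreme

variable (x : Matrix J J ℝ) (ρ : ℝ)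

/-- normalized nonnegative eigenvectors for the eigenvalue `ρ` -/
def E1 : Set (J → ℝ) := {v | v ∈ stdSimplex ℝ J ∧ x *ᵥ v = ρ • v}

variable {x ρ}

theorem E1_convex : Convex ℝ (E1 x ρ) := by
  intro v hv w hw a b ha hb hab
  refine ⟨convex_stdSimplex ℝ J hv.1 hw.1 ha hb hab, ?_⟩
  rw [Matrix.mulVec_add, Matrix.mulVec_smul, Matrix.mulVec_smul, hv.2, hw.2]
  simp only [smul_add, smul_smul]
  rw [mul_comm a, mul_comm b]

theorem E1_compact : IsCompact (E1 x ρ) := by
  refine (isCompact_stdSimplex ℝ J).of_isClosed_subset ?_ (fun v hv => hv.1)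
  refine (isClosed_stdSimplex ℝ J).inter ?_
  exact isClosed_eq (continuous_const.matrix_mulVec continuous_id) (continuous_id.const_smul ρ)

/-- an extreme point absorbs every proportional-support eigenvector below a multiple of it -/
theorem ext_absorb {r : J → ℝ} (hr : r ∈ (E1 x ρ).extremePoints ℝ) {z : J → ℝ}
    (hz0 : ∀ i, 0 ≤ z i) (hz : x *ᵥ z = ρ • z) {κ : ℝ} (hκ : 0 < κ) (hle : ∀ i, z i ≤ κ * r i)
    (hpos : 0 < ∑ i, z i) : z = (∑ i, z i) • r := by
  obtain ⟨hrE, hext⟩ := hr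
  set s := ∑ i, z i with hs
  have hrs : ∑ i, r i = 1 := hrE.1.2
  -- choose c large
  set w : J → ℝ := s⁻¹ • z with hw
  have hwE : w ∈ E1 x ρ := by
    refine ⟨⟨fun i => ?_, ?_⟩, ?_⟩
    · simp only [hw, Pi.smul_apply, smul_eq_mul]
      exact mul_nonneg (inv_nonneg.2 hpos.le) (hz0 i)
    · simp only [hw, Pi.smul_apply, smul_eq_mul]
      rw [← Finset.mul_sum, ← hs, inv_mul_cancel₀ hpos.ne']
    · rw [hw, Matrix.mulVec_smul, hz, smul_comm]
  -- r = ε w + (1-ε) u
  set c : ℝ := max (κ / s) 1 + 1 with hc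
  have hc1 : 1 < c := by
    have := le_max_right (κ / s) 1
    linarith
  have hcpos : 0 < c := by linarith
  have hwle : ∀ i, w i ≤ c * r i := by
    intro i
    have h1 : w i ≤ κ / s * r i := by
      simp only [hw, Pi.smul_apply, smul_eq_mul]
      rw [div_mul_eq_mul_div, inv_mul_eq_div]
      exact div_le_div_of_nonneg_right (hle i) hpos.le
    refine le_trans h1 (mul_le_mul_of_nonneg_right ?_ (hrE.1.1 i))
    have := le_max_left (κ / s) 1
    linarith
  set u : J → ℝ := (1 - c⁻¹)⁻¹ • (r - c⁻¹ • w) with hu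
  have hcinv : c⁻¹ < 1 := inv_lt_one_of_one_lt₀ hc1
  have hcinv0 : 0 < c⁻¹ := inv_pos.2 hcpos
  have h1c : 0 < 1 - c⁻¹ := by linarith
  have huE : u ∈ E1 x ρ := by
    refine ⟨⟨fun i => ?_, ?_⟩, ?_⟩
    · simp only [hu, Pi.smul_apply, Pi.sub_apply, smul_eq_mul]
      refine mul_nonneg (inv_nonneg.2 h1c.le) ?_
      have := mul_le_mul_of_nonneg_left (hwle i) hcinv0.le
      rw [← mul_assoc, inv_mul_cancel₀ hcpos.ne', one_mul] at this
      linarith
    · simp only [hu, Pi.smul_apply, Pi.sub_apply, smul_eq_mul]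
      rw [← Finset.mul_sum, Finset.sum_sub_distrib, ← Finset.mul_sum, hrs, hwE.1.2, mul_one,
        inv_mul_cancel₀ h1c.ne']
    · rw [hu, Matrix.mulVec_smul, Matrix.mulVec_sub, Matrix.mulVec_smul, hwE.2, hrE.2]
      ext i
      simp only [Pi.smul_apply, Pi.sub_apply, smul_eq_mul]
      ring
  have hseg : r ∈ openSegment ℝ w u := by
    refine ⟨c⁻¹, 1 - c⁻¹, hcinv0, h1c, by ring, ?_⟩
    rw [hu, smul_smul (1 - c⁻¹), mul_inv_cancel₀ h1c.ne', one_smul]
    abel
  have hwr : w = r := hext hwE huE hseg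
  rw [← hwr, hw, smul_smul, mul_inv_cancel₀ hpos.ne', one_smul]

theorem ext_finite : ((E1 x ρ).extremePoints ℝ).Finite := by
  classical
  -- injective support map into a finite set
  have hinj : Set.InjOn (fun r : J → ℝ => Finset.univ.filter (fun i => 0 < r i))
      ((E1 x ρ).extremePoints ℝ) := by
    intro r hr r' hr' h
    simp only at h
    have hrE := hr.1
    have hrE' := hr'.1
    have hsupp : ∀ i, 0 < r i ↔ 0 < r' i := by
      intro i
      have := Finset.ext_iff.1 h i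
      simpa using this
    -- r' ≤ κ r
    obtain ⟨κ, hκ, hle⟩ : ∃ κ : ℝ, 0 < κ ∧ ∀ i, r' i ≤ κ * r i := by
      refine ⟨1 + ∑ i, r' i / r i, ?_, ?_⟩
      · have : 0 ≤ ∑ i, r' i / r i :=
          Finset.sum_nonneg (fun i _ => div_nonneg (hrE'.1.1 i) (hrE.1.1 i))
        linarith
      · intro i
        rcases (hrE'.1.1 i).lt_or_eq with h0 | h0
        · have hri := (hsupp i).2 h0
          have h1 : r' i / r i ≤ 1 + ∑ i, r' i / r i := by
            have := Finset.single_le_sum (f := fun i => r' i / r i)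
              (fun i _ => div_nonneg (hrE'.1.1 i) (hrE.1.1 i)) (Finset.mem_univ i)
            linarith
          rwa [div_le_iff₀ hri] at h1
        · rw [← h0]
          refine mul_nonneg ?_ (hrE.1.1 i)
          have : 0 ≤ ∑ i, r' i / r i :=
            Finset.sum_nonneg (fun i _ => div_nonneg (hrE'.1.1 i) (hrE.1.1 i))
          linarith
    have := ext_absorb hr hrE'.1.1 hrE'.2 hκ hle (by rw [hrE'.1.2]; norm_num)
    rw [hrE'.1.2, one_smul] at this
    exact this.symm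
  exact Set.Finite.of_finite_image (Set.toFinite _) hinj

noncomputable instance extFintype : Fintype ((E1 x ρ).extremePoints ℝ) := ext_finite.fintype

/-- every normalized eigenvector is a convex combination of the extreme ones -/
theorem E1_decomp {v : J → ℝ} (hv : v ∈ E1 x ρ) :
    ∃ a : ((E1 x ρ).extremePoints ℝ) → ℝ, (∀ r, 0 ≤ a r) ∧ (∑ r, a r = 1) ∧
      v = ∑ r : ((E1 x ρ).extremePoints ℝ), a r • (r : J → ℝ) := by
  classical
  have h1 := closure_convexHull_extremePoints (E1_compact (x := x) (ρ := ρ)) E1_convex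
  have hfin := ext_finite (x := x) (ρ := ρ)
  rw [(hfin.isClosed_convexHull ℝ).closure_eq] at h1
  rw [← h1, hfin.convexHull_eq] at hv
  obtain ⟨w, hw0, hw1, hwv⟩ := hv
  rw [Finset.centerMass_eq_of_sum_1 _ _ hw1] at hwv
  refine ⟨fun r => w r, fun r => hw0 r r.2, ?_, ?_⟩
  · rw [← hw1]
    refine Finset.sum_subtype hfin.toFinset (p := fun r => r ∈ (E1 x ρ).extremePoints ℝ) ?_ w |>.symm.trans ?_
    · intro y; simp
    · rfl
  · rw [← hwv]
    refine Finset.sum_subtype hfin.toFinset (p := fun r => r ∈ (E1 x ρ).extremePoints ℝ) ?_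
      (fun r => w r • id r)
    intro y; simp

end extreme

section limits

/-- a sequence of resolvents approaching the critical parameter -/
structure ResSeq (x : Matrix J J ℝ) (ρ : ℝ) (t : ℕ → ℝ) (A : ℕ → Matrix J J ℝ) : Prop where
  ρpos : 0 < ρ
  tpos : ∀ n, 0 < t n
  tlt : ∀ n, t n * ρ < 1
  tlim : Tendsto (fun n => t n * ρ) atTop (𝓝 1)
  nn : ∀ n i j, 0 ≤ A n i j
  eql : ∀ n, A n = 1 + t n • (x * A n)
  eqr : ∀ n, A n = 1 + t n • (A n * x)
  cone : ∀ n C, StCone x C → ∀ v ∈ C, A n *ᵥ v ∈ C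
  big : ∀ n, (1 - t n * ρ)⁻¹ ≤ ∑ i, ∑ j, A n i j

theorem exists_resSeq [Nonempty J] {x : Matrix J J ℝ} (hnn : ∀ i j, 0 ≤ x i j)
    (hrow : ∀ i, ∃ j, 0 < x i j) : ∃ ρ t A, ResSeq x ρ t A := by
  obtain ⟨ρ, hρ, h⟩ := exists_resolvent hnn hrow
  have ht : ∀ n : ℕ, 0 < (1 - 1 / ((n : ℝ) + 2)) * ρ⁻¹ := by
    intro n
    refine mul_pos ?_ (inv_pos.2 hρ)
    have : (0 : ℝ) < (n : ℝ) + 2 := by positivity
    have h2 : 1 / ((n : ℝ) + 2) < 1 := by
      rw [div_lt_one this]
      have : (0 : ℝ) ≤ n := Nat.cast_nonneg n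
      linarith
    linarith
  have hteq : ∀ n : ℕ, (1 - 1 / ((n : ℝ) + 2)) * ρ⁻¹ * ρ = 1 - 1 / ((n : ℝ) + 2) := by
    intro n
    rw [mul_assoc, inv_mul_cancel₀ hρ.ne', mul_one]
  have ht1 : ∀ n : ℕ, (1 - 1 / ((n : ℝ) + 2)) * ρ⁻¹ * ρ < 1 := by
    intro n
    rw [hteq]
    have : 0 < 1 / ((n : ℝ) + 2) := by positivity
    linarith
  choose A hA using fun n => h _ (ht n) (ht1 n)
  refine ⟨ρ, fun n => (1 - 1 / ((n : ℝ) + 2)) * ρ⁻¹, A, hρ, ht, ht1, ?_, fun n => (hA n).1,
    fun n => (hA n).2.1, fun n => (hA n).2.2.1, fun n => (hA n).2.2.2.1, fun n => (hA n).2.2.2.2⟩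
  simp_rw [hteq]
  have h1 : Tendsto (fun n : ℕ => 1 / ((n : ℝ) + 2)) atTop (𝓝 0) := by
    have := (tendsto_const_div_atTop_nhds_zero_nat (1 : ℝ)).comp (tendsto_add_atTop_nat 2)
    refine this.congr (fun n => ?_)
    simp
  simpa using (tendsto_const_nhds (x := (1 : ℝ))).sub h1

variable {x : Matrix J J ℝ} {ρ : ℝ} {t : ℕ → ℝ} {A : ℕ → Matrix J J ℝ}

theorem ResSeq.tlim' (h : ResSeq x ρ t A) : Tendsto t atTop (𝓝 ρ⁻¹) := by
  have := h.tlim.mul_const ρ⁻¹
  rw [one_mul] at this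
  refine this.congr (fun n => ?_)
  rw [mul_assoc, mul_inv_cancel₀ h.ρpos.ne', mul_one]

theorem ResSeq.lim_b [Nonempty J] (h : ResSeq x ρ t A) {b : J → ℝ} (hb : ∀ i, 0 < b i) :
    ∃ v ∈ E1 x ρ, ∀ C, StCone x C → b ∈ C → v ∈ C := by
  obtain ⟨i0, hi0⟩ := Finite.exists_min b
  set s : ℕ → ℝ := fun n => ∑ i, (A n *ᵥ b) i with hs
  have hsb : ∀ n, b i0 * (1 - t n * ρ)⁻¹ ≤ s n := by
    intro n
    refine le_trans (mul_le_mul_of_nonneg_left (h.big n) (hb i0).le) ?_
    rw [Finset.mul_sum]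
    refine Finset.sum_le_sum (fun i _ => ?_)
    rw [Finset.mul_sum]
    simp only [Matrix.mulVec, dotProduct]
    refine Finset.sum_le_sum (fun j _ => ?_)
    rw [mul_comm]
    exact mul_le_mul_of_nonneg_left (hi0 j) (h.nn n i j)
  have h1t : ∀ n, 0 < 1 - t n * ρ := fun n => by have := h.tlt n; linarith
  have hspos : ∀ n, 0 < s n := fun n =>
    lt_of_lt_of_le (mul_pos (hb i0) (inv_pos.2 (h1t n))) (hsb n)
  have hsinv : Tendsto (fun n => (s n)⁻¹) atTop (𝓝 0) := by
    have h2 : Tendsto (fun n => (b i0)⁻¹ * (1 - t n * ρ)) atTop (𝓝 0) := by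
      have := (tendsto_const_nhds (x := (1 : ℝ))).sub h.tlim
      have := this.const_mul (b i0)⁻¹
      simpa using this
    refine squeeze_zero (fun n => (inv_pos.2 (hspos n)).le) (fun n => ?_) h2
    have := inv_anti₀ (mul_pos (hb i0) (inv_pos.2 (h1t n))) (hsb n)
    rwa [mul_inv, inv_inv] at this
  have hvS : ∀ n, (s n)⁻¹ • (A n *ᵥ b) ∈ stdSimplex ℝ J := by
    intro n
    refine ⟨fun i => ?_, ?_⟩
    · simp only [Pi.smul_apply, smul_eq_mul]
      refine mul_nonneg (inv_nonneg.2 (hspos n).le) ?_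
      exact Finset.sum_nonneg (fun j _ => mul_nonneg (h.nn n i j) (hb j).le)
    · simp only [Pi.smul_apply, smul_eq_mul]
      rw [← Finset.mul_sum]
      exact inv_mul_cancel₀ (hspos n).ne'
  obtain ⟨v, hv, φ, hφ, hlim⟩ := (isCompact_stdSimplex ℝ J).tendsto_subseq hvS
  have hφt := hφ.tendsto_atTop
  refine ⟨v, ⟨hv, ?_⟩, ?_⟩
  · have heq : ∀ n, (s n)⁻¹ • (A n *ᵥ b) = (s n)⁻¹ • b + t n • (x *ᵥ ((s n)⁻¹ • (A n *ᵥ b))) := by
      intro n
      conv_lhs => rw [h.eql n]
      rw [Matrix.add_mulVec, Matrix.one_mulVec, Matrix.smul_mulVec, ← Matrix.mulVec_mulVec,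
        smul_add, Matrix.mulVec_smul, smul_comm]
    have hc : Continuous (fun w : J → ℝ => x *ᵥ w) := continuous_const.matrix_mulVec continuous_id
    have hR : Tendsto (fun n => (s (φ n))⁻¹ • b + t (φ n) • (x *ᵥ ((s (φ n))⁻¹ • (A (φ n) *ᵥ b))))
        atTop (𝓝 ((0 : ℝ) • b + ρ⁻¹ • (x *ᵥ v))) := by
      refine Tendsto.add ?_ ?_
      · exact (hsinv.comp hφt).smul_const b
      · exact (h.tlim'.comp hφt).smul ((hc.tendsto v).comp hlim)
    have hL : Tendsto (fun n => (s (φ n))⁻¹ • (A (φ n) *ᵥ b)) atTop (𝓝 v) := hlim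
    have := tendsto_nhds_unique (hL.congr (fun n => heq (φ n))) hR
    rw [zero_smul, zero_add] at this
    rw [this, smul_smul, mul_inv_cancel₀ h.ρpos.ne', one_smul, ← this]
  · intro C hC hbC
    refine hC.closed.mem_of_tendsto hlim (Eventually.of_forall (fun n => ?_))
    exact hC.smul _ (h.cone _ C hC b hbC) _ (inv_nonneg.2 (hspos _).le)

theorem ResSeq.lim_e (h : ResSeq x ρ t A) {Yd : Matrix J J ℝ} {κ' κ : ℝ} (hκ' : 0 < κ')
    (hκ : 0 < κ) (hlow : ∀ i j, κ' * x i j ≤ Yd i j) (hup : ∀ i j, Yd i j ≤ κ * x i j) :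
    ∃ y : ((E1 x ρ).extremePoints ℝ) → ℝ, (∀ r, 0 < y r) ∧
      ∀ C, StCone x C → ∀ a : ((E1 x ρ).extremePoints ℝ) → ℝ,
        Yd *ᵥ (∑ r : ((E1 x ρ).extremePoints ℝ), a r • (r : J → ℝ)) ∈ C →
        (∑ r : ((E1 x ρ).extremePoints ℝ), (a r * y r) • (r : J → ℝ)) ∈ C := by
  set R := ((E1 x ρ).extremePoints ℝ) with hR
  have h1t : ∀ n, 0 < 1 - t n * ρ := fun n => by have := h.tlt n; linarith
  have hrE : ∀ r : R, (r : J → ℝ) ∈ E1 x ρ := fun r => r.2.1
  have hAr : ∀ n (r : R), (1 - t n * ρ) • (A n *ᵥ (r : J → ℝ)) = r := by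
    intro n r
    have h1 : A n *ᵥ (r : J → ℝ) = (r : J → ℝ) + (t n * ρ) • (A n *ᵥ (r : J → ℝ)) := by
      conv_lhs => rw [h.eqr n]
      rw [Matrix.add_mulVec, Matrix.one_mulVec, Matrix.smul_mulVec, ← Matrix.mulVec_mulVec,
        (hrE r).2, Matrix.mulVec_smul, smul_smul]
    rw [sub_smul, one_smul, sub_eq_iff_eq_add]
    exact h1
  have hup' : ∀ (r : R) i, (Yd *ᵥ (r : J → ℝ)) i ≤ κ * ρ * (r : J → ℝ) i := by
    intro r i
    have h2 : (x *ᵥ (r : J → ℝ)) i = ρ * (r : J → ℝ) i := by rw [(hrE r).2]; rfl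
    rw [mul_assoc, ← h2]
    simp only [Matrix.mulVec, dotProduct]
    rw [Finset.mul_sum]
    refine Finset.sum_le_sum (fun j _ => ?_)
    rw [← mul_assoc]
    exact mul_le_mul_of_nonneg_right (hup i j) ((hrE r).1.1 j)
  have hlow' : ∀ (r : R) i, κ' * ρ * (r : J → ℝ) i ≤ (Yd *ᵥ (r : J → ℝ)) i := by
    intro r i
    have h2 : (x *ᵥ (r : J → ℝ)) i = ρ * (r : J → ℝ) i := by rw [(hrE r).2]; rfl
    rw [mul_assoc, ← h2]
    simp only [Matrix.mulVec, dotProduct]
    rw [Finset.mul_sum]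
    refine Finset.sum_le_sum (fun j _ => ?_)
    rw [← mul_assoc]
    exact mul_le_mul_of_nonneg_right (hlow i j) ((hrE r).1.1 j)
  -- the bounded sequence
  set F : ℕ → R → J → ℝ := fun n r => (1 - t n * ρ) • (A n *ᵥ (Yd *ᵥ (r : J → ℝ))) with hF
  have hmono : ∀ n (v w : J → ℝ), (∀ i, v i ≤ w i) →
      ∀ i, ((1 - t n * ρ) • (A n *ᵥ v)) i ≤ ((1 - t n * ρ) • (A n *ᵥ w)) i := by
    intro n v w hvw i
    simp only [Pi.smul_apply, smul_eq_mul]
    refine mul_le_mul_of_nonneg_left ?_ (h1t n).le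
    simp only [Matrix.mulVec, dotProduct]
    exact Finset.sum_le_sum (fun j _ => mul_le_mul_of_nonneg_left (hvw j) (h.nn n i j))
  have hFmem : ∀ n, F n ∈ Set.Icc (fun (r : R) (i : J) => κ' * ρ * (r : J → ℝ) i)
      (fun (r : R) (i : J) => κ * ρ * (r : J → ℝ) i) := by
    intro n
    constructor
    · intro r i
      have h3 := hmono n (fun i => κ' * ρ * (r : J → ℝ) i) (Yd *ᵥ (r : J → ℝ)) (hlow' r) i
      have h4 : ((1 - t n * ρ) • (A n *ᵥ (fun i => κ' * ρ * (r : J → ℝ) i))) i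
          = κ' * ρ * (r : J → ℝ) i := by
        have : (fun i => κ' * ρ * (r : J → ℝ) i) = (κ' * ρ) • (r : J → ℝ) := rfl
        rw [this, Matrix.mulVec_smul, smul_comm, hAr n r]
        rfl
      rw [h4] at h3
      exact h3
    · intro r i
      have h3 := hmono n (Yd *ᵥ (r : J → ℝ)) (fun i => κ * ρ * (r : J → ℝ) i) (hup' r) i
      have h4 : ((1 - t n * ρ) • (A n *ᵥ (fun i => κ * ρ * (r : J → ℝ) i))) i
          = κ * ρ * (r : J → ℝ) i := by
        have : (fun i => κ * ρ * (r : J → ℝ) i) = (κ * ρ) • (r : J → ℝ) := rfl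
        rw [this, Matrix.mulVec_smul, smul_comm, hAr n r]
        rfl
      rw [h4] at h3
      exact h3
  obtain ⟨z, hz, φ, hφ, hlim⟩ := isCompact_Icc.tendsto_subseq hFmem
  have hφt := hφ.tendsto_atTop
  have hlimr : ∀ r, Tendsto (fun n => F (φ n) r) atTop (𝓝 (z r)) := fun r =>
    tendsto_pi_nhds.1 hlim r
  have hc : Continuous (fun w : J → ℝ => x *ᵥ w) := continuous_const.matrix_mulVec continuous_id
  have hxz : ∀ r, x *ᵥ (z r) = ρ • z r := by
    intro r
    have heq : ∀ n, F n r = (1 - t n * ρ) • (Yd *ᵥ (r : J → ℝ)) + t n • (x *ᵥ (F n r)) := by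
      intro n
      simp only [hF]
      conv_lhs => rw [h.eql n]
      rw [Matrix.add_mulVec, Matrix.one_mulVec, Matrix.smul_mulVec, ← Matrix.mulVec_mulVec,
        smul_add, Matrix.mulVec_smul, smul_comm]
    have hR : Tendsto (fun n => (1 - t (φ n) * ρ) • (Yd *ᵥ (r : J → ℝ)) +
        t (φ n) • (x *ᵥ (F (φ n) r))) atTop
        (𝓝 ((1 - 1 : ℝ) • (Yd *ᵥ (r : J → ℝ)) + ρ⁻¹ • (x *ᵥ z r))) := by
      refine Tendsto.add ?_ ?_
      · refine Tendsto.smul_const ?_ _
        exact (tendsto_const_nhds (x := (1 : ℝ))).sub (h.tlim.comp hφt)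
      · exact (h.tlim'.comp hφt).smul ((hc.tendsto (z r)).comp (hlimr r))
    have := tendsto_nhds_unique ((hlimr r).congr (fun n => heq (φ n))) hR
    rw [sub_self, zero_smul, zero_add] at this
    rw [this, smul_smul, mul_inv_cancel₀ h.ρpos.ne', one_smul, ← this]
  have hzlow : ∀ (r : R) i, κ' * ρ * (r : J → ℝ) i ≤ z r i := fun r i => hz.1 r i
  have hzup : ∀ (r : R) i, z r i ≤ κ * ρ * (r : J → ℝ) i := fun r i => hz.2 r i
  have hypos : ∀ r, 0 < ∑ i, z r i := by
    intro r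
    have h5 : κ' * ρ * 1 ≤ ∑ i, z r i := by
      rw [← (hrE r).1.2, Finset.mul_sum]
      exact Finset.sum_le_sum (fun i _ => hzlow r i)
    have : 0 < κ' * ρ := mul_pos hκ' h.ρpos
    linarith
  have hz0 : ∀ r i, 0 ≤ z r i := fun r i =>
    le_trans (mul_nonneg (mul_pos hκ' h.ρpos).le ((hrE r).1.1 i)) (hzlow r i)
  have hzr : ∀ r : R, z r = (∑ i, z r i) • (r : J → ℝ) := fun r =>
    ext_absorb r.2 (hz0 r) (hxz r) (mul_pos hκ h.ρpos) (hzup r) (hypos r)
  refine ⟨fun r => ∑ i, z r i, hypos, ?_⟩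
  intro C hC a ha
  have h6 : (∑ r : R, (a r * ∑ i, z r i) • (r : J → ℝ)) = ∑ r : R, a r • z r := by
    refine Finset.sum_congr rfl (fun r _ => ?_)
    rw [mul_smul, ← hzr r]
  rw [h6]
  have h7 : Tendsto (fun n => ∑ r : R, a r • F (φ n) r) atTop (𝓝 (∑ r : R, a r • z r)) :=
    tendsto_finsetSum _ (fun r _ => (hlimr r).const_smul (a r))
  refine hC.closed.mem_of_tendsto h7 (Eventually.of_forall (fun n => ?_))
  have h8 : ∑ r : R, a r • F (φ n) r = (1 - t (φ n) * ρ) •
      (A (φ n) *ᵥ (Yd *ᵥ (∑ r : R, a r • (r : J → ℝ)))) := by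
    simp only [hF, Matrix.mulVec_sum, Matrix.mulVec_smul, Finset.smul_sum]
    refine Finset.sum_congr rfl (fun r _ => ?_)
    rw [smul_comm]
  rw [h8]
  exact hC.smul _ (h.cone _ C hC _ ha) _ (h1t _).le

/-- the dominant part stays in the cone -/
theorem dominant_mem {R : Type*} [Fintype R] [DecidableEq R] (e : R → J → ℝ)
    {Yd : Matrix J J ℝ} {y : R → ℝ} (hy : ∀ r, 0 < y r) {C : Set (J → ℝ)} (hC : StCone x C)
    (hstab : ∀ v ∈ C, Yd *ᵥ v ∈ C)
    (hlim : ∀ a : R → ℝ, Yd *ᵥ (∑ r, a r • e r) ∈ C → (∑ r, (a r * y r) • e r) ∈ C)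
    (a : R → ℝ) (ha : ∀ r, 0 ≤ a r) (P : Finset R) (hP : ∀ r, r ∈ P ↔ 0 < a r)
    (hPne : P.Nonempty) (hmem : Yd *ᵥ (∑ r, a r • e r) ∈ C) :
    (∑ r ∈ P.filter (fun r => ∀ r' ∈ P, y r' ≤ y r), a r • e r) ∈ C := by
  obtain ⟨r0, hr0, hmax⟩ := P.exists_max_image y hPne
  have hpow : ∀ n : ℕ, (∑ r, (a r * y r ^ (n + 1)) • e r) ∈ C := by
    intro n
    induction n with
    | zero => simpa using hlim a hmem
    | succ n ih =>
      have := hlim _ (hstab _ ih)
      have h1 : ∀ r, a r * y r ^ (n + 1) * y r = a r * y r ^ (n + 1 + 1) := by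
        intro r; ring
      simpa only [h1] using this
  have hsc : ∀ n : ℕ, (∑ r, (a r * (y r / y r0) ^ (n + 1)) • e r) ∈ C := by
    intro n
    have := hC.smul _ (hpow n) ((y r0)⁻¹ ^ (n + 1)) (pow_nonneg (inv_nonneg.2 (hy r0).le) _)
    rw [Finset.smul_sum] at this
    have h1 : ∀ r, (y r0)⁻¹ ^ (n + 1) • (a r * y r ^ (n + 1)) • e r =
        (a r * (y r / y r0) ^ (n + 1)) • e r := by
      intro r
      rw [smul_smul, div_eq_mul_inv, mul_pow]
      congr 1
      ring
    simpa only [h1] using this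
  have hterm : ∀ r, Tendsto (fun n : ℕ => (a r * (y r / y r0) ^ (n + 1)) • e r) atTop
      (𝓝 ((if r ∈ P.filter (fun r => ∀ r' ∈ P, y r' ≤ y r) then a r else 0) • e r)) := by
    intro r
    refine Tendsto.smul_const ?_ _
    by_cases hrP : r ∈ P
    · by_cases hre : y r = y r0
      · have hmemf : r ∈ P.filter (fun r => ∀ r' ∈ P, y r' ≤ y r) := by
          rw [Finset.mem_filter]
          exact ⟨hrP, fun r' hr' => by rw [hre]; exact hmax r' hr'⟩
        rw [if_pos hmemf, hre, div_self (hy r0).ne']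
        simp
      · have hnot : r ∉ P.filter (fun r => ∀ r' ∈ P, y r' ≤ y r) := by
          rw [Finset.mem_filter]
          intro hh
          exact hre (le_antisymm (hmax r hrP) (hh.2 r0 hr0))
        rw [if_neg hnot]
        have hlt : y r / y r0 < 1 := by
          rw [div_lt_one (hy r0)]
          exact lt_of_le_of_ne (hmax r hrP) hre
        have := (tendsto_pow_atTop_nhds_zero_of_lt_one (div_pos (hy r) (hy r0)).le hlt)
        have := (this.comp (tendsto_add_atTop_nat 1)).const_mul (a r)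
        rw [mul_zero] at this
        exact this
    · have hnot : r ∉ P.filter (fun r => ∀ r' ∈ P, y r' ≤ y r) := by
        rw [Finset.mem_filter]
        exact fun hh => hrP hh.1
      have h0 : a r = 0 := by
        by_contra hne
        exact hrP ((hP r).2 (lt_of_le_of_ne (ha r) (Ne.symm hne)))
      rw [if_neg hnot, h0]
      simp
  have hlimsum := tendsto_finsetSum (Finset.univ : Finset R) (fun r _ => hterm r)
  have := hC.closed.mem_of_tendsto hlimsum (Eventually.of_forall hsc)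
  have h9 : (∑ r, (if r ∈ P.filter (fun r => ∀ r' ∈ P, y r' ≤ y r) then a r else 0) • e r) =
      ∑ r ∈ P.filter (fun r => ∀ r' ∈ P, y r' ≤ y r), a r • e r := by
    rw [← Finset.sum_filter_add_sum_filter_not Finset.univ
      (fun r => r ∈ P.filter (fun r => ∀ r' ∈ P, y r' ≤ y r))]
    have hA : ∀ r ∈ Finset.univ.filter
        (fun r => ¬ r ∈ P.filter (fun r => ∀ r' ∈ P, y r' ≤ y r)),
        (if r ∈ P.filter (fun r => ∀ r' ∈ P, y r' ≤ y r) then a r else 0) • e r = 0 := by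
      intro r hr
      rw [Finset.mem_filter] at hr
      rw [if_neg hr.2, zero_smul]
    rw [Finset.sum_eq_zero hA, add_zero]
    refine Finset.sum_congr ?_ (fun r hr => ?_)
    · ext r
      simp
    · rw [if_pos hr]
  rw [h9] at this
  exact this

end limits

section main

/-- iterated action of the matrices `Y D`, `D ∈ l` -/
def act (Y : ℕ → Matrix J J ℝ) (l : List ℕ) (v : J → ℝ) : J → ℝ :=
  l.foldr (fun D u => Y D *ᵥ u) v

omit [DecidableEq J] in
theorem act_append (Y : ℕ → Matrix J J ℝ) (l : List ℕ) (D : ℕ) (v : J → ℝ) :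
    act Y (l ++ [D]) v = act Y l (Y D *ᵥ v) := by
  simp [act, List.foldr_append]

omit [DecidableEq J] in
theorem act_add (Y : ℕ → Matrix J J ℝ) (l : List ℕ) (v w : J → ℝ) :
    act Y l (v + w) = act Y l v + act Y l w := by
  induction l with
  | nil => rfl
  | cons D l ih =>
    simp only [act, List.foldr_cons] at ih ⊢
    rw [ih, Matrix.mulVec_add]

omit [DecidableEq J] in
theorem act_smul (Y : ℕ → Matrix J J ℝ) (l : List ℕ) (c : ℝ) (v : J → ℝ) :
    act Y l (c • v) = c • act Y l v := by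
  induction l with
  | nil => rfl
  | cons D l ih =>
    simp only [act, List.foldr_cons] at ih ⊢
    rw [ih, Matrix.mulVec_smul]

omit [DecidableEq J] in
theorem act_continuous (Y : ℕ → Matrix J J ℝ) (l : List ℕ) : Continuous (act Y l) := by
  induction l with
  | nil => exact continuous_id
  | cons D l ih =>
    have : act Y (D :: l) = fun v => Y D *ᵥ act Y l v := rfl
    rw [this]
    exact continuous_const.matrix_mulVec ih

/-- the cone cut out by a family of lists -/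
def coneL (Y : ℕ → Matrix J J ℝ) (L : Set (List ℕ)) (K : ℝ) (f g : J → ℝ) : Set (J → ℝ) :=
  {v | ∀ l ∈ L, K * (f ⬝ᵥ act Y l v) ≤ g ⬝ᵥ act Y l v}

omit [DecidableEq J] in
theorem coneL_stab (Y : ℕ → Matrix J J ℝ) (L : Set (List ℕ)) (K : ℝ) (f g : J → ℝ) (D : ℕ)
    (hL : ∀ l ∈ L, l ++ [D] ∈ L) : ∀ v ∈ coneL Y L K f g, Y D *ᵥ v ∈ coneL Y L K f g := by
  intro v hv l hl
  have := hv _ (hL l hl)
  rwa [act_append] at this

theorem coneL_stCone (Y : ℕ → Matrix J J ℝ) (L : Set (List ℕ)) (K : ℝ) (f g : J → ℝ)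
    (hL : ∀ l ∈ L, l ++ [0] ∈ L) : StCone (Y 0) (coneL Y L K f g) where
  closed := by
    have : coneL Y L K f g = ⋂ l ∈ L, {v | K * (f ⬝ᵥ act Y l v) ≤ g ⬝ᵥ act Y l v} := by
      ext v; simp [coneL]
    rw [this]
    refine isClosed_biInter (fun l _ => isClosed_le ?_ ?_)
    · exact continuous_const.mul (continuous_const.dotProduct (act_continuous Y l))
    · exact continuous_const.dotProduct (act_continuous Y l)
  smul := by
    intro v hv c hc l hl
    have := mul_le_mul_of_nonneg_left (hv l hl) hc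
    rw [act_smul, dotProduct_smul, dotProduct_smul, smul_eq_mul, smul_eq_mul]
    linarith
  add := by
    intro v hv w hw l hl
    have h1 := hv l hl
    have h2 := hw l hl
    rw [act_add, dotProduct_add, dotProduct_add]
    linarith
  stab := coneL_stab Y L K f g 0 hL

theorem exists_comparison {x Yd : Matrix J J ℝ} (hx : ∀ i j, 0 ≤ x i j)
    (hY : ∀ i j, 0 ≤ Yd i j) (h : ∀ i j, 0 < Yd i j → 0 < x i j) :
    ∃ κ : ℝ, 0 < κ ∧ ∀ i j, Yd i j ≤ κ * x i j := by
  have hnn : 0 ≤ ∑ i, ∑ j, Yd i j / x i j :=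
    Finset.sum_nonneg (fun i _ => Finset.sum_nonneg (fun j _ => div_nonneg (hY i j) (hx i j)))
  refine ⟨1 + ∑ i, ∑ j, Yd i j / x i j, by linarith, ?_⟩
  intro i j
  rcases (hY i j).lt_or_eq with h0 | h0
  · have hxi := h i j h0
    have h1 : Yd i j / x i j ≤ ∑ i, ∑ j, Yd i j / x i j := by
      refine le_trans ?_ (Finset.single_le_sum (f := fun i => ∑ j, Yd i j / x i j)
        (fun i _ => Finset.sum_nonneg (fun j _ => div_nonneg (hY i j) (hx i j)))
        (Finset.mem_univ i))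
      exact Finset.single_le_sum (f := fun j => Yd i j / x i j)
        (fun j _ => div_nonneg (hY i j) (hx i j)) (Finset.mem_univ j)
    have h2 : Yd i j / x i j ≤ 1 + ∑ i, ∑ j, Yd i j / x i j := by linarith
    rwa [div_le_iff₀ hxi] at h2
  · rw [← h0]
    exact mul_nonneg (by linarith) (hx i j)

/-- **The linear algebra theorem.** -/
theorem la_main [Nonempty J] (Y : ℕ → Matrix J J ℝ) (hnn : ∀ D i j, 0 ≤ Y D i j)
    (hsupp : ∀ D i j, 0 < Y D i j ↔ 0 < Y 0 i j) (hrow : ∀ i, ∃ j, 0 < Y 0 i j)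
    (b : ℕ → J → ℝ) (hb : ∀ H i, 0 < b H i) (p q : ℕ → J → ℝ)
    (hp : ∀ H i, 0 ≤ p H i) (hq : ∀ H i, 0 ≤ q H i) (hpq : ∀ H i, 0 < p H i + q H i)
    (K : ℝ) (hK : 1 < K)
    (h1 : ∀ H l, (∀ D ∈ l, D ≤ H) → K * (q H ⬝ᵥ act Y l (b H)) ≤ p H ⬝ᵥ act Y l (b H))
    (h2 : ∀ H l, (∃ D ∈ l, H < D) → K * (p H ⬝ᵥ act Y l (b H)) ≤ q H ⬝ᵥ act Y l (b H)) :
    False := by
  classical
  obtain ⟨ρ, t, A, hRS⟩ := exists_resSeq (x := Y 0) (hnn 0) hrow
  set R := ((E1 (Y 0) ρ).extremePoints ℝ) with hR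
  -- coefficients of the limit vectors
  choose v hvE hvC using fun H => hRS.lim_b (hb H)
  choose a ha0 ha1 hav using fun H => E1_decomp (hvE H)
  -- growth rates
  have hex : ∀ D, ∃ y : R → ℝ, (∀ r, 0 < y r) ∧
      ∀ C, StCone (Y 0) C → ∀ a : R → ℝ,
        Y D *ᵥ (∑ r : R, a r • (r : J → ℝ)) ∈ C →
        (∑ r : R, (a r * y r) • (r : J → ℝ)) ∈ C := by
    intro D
    obtain ⟨κ, hκ, hup⟩ := exists_comparison (hnn 0) (hnn D) (fun i j => (hsupp D i j).1)
    obtain ⟨κ', hκ', hlow⟩ := exists_comparison (hnn D) (hnn 0) (fun i j => (hsupp D i j).2)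
    refine hRS.lim_e (Yd := Y D) (κ' := κ'⁻¹) (κ := κ) (inv_pos.2 hκ') hκ (fun i j => ?_) hup
    rw [inv_mul_le_iff₀ hκ']
    exact hlow i j
  choose y hy0 hyC using hex
  -- pigeonhole
  obtain ⟨col, hcol⟩ := Finite.exists_infinite_fiber
    (fun m : ℕ => fun P : Finset R => P.filter (fun r => ∀ r' ∈ P, y m r' ≤ y m r))
  have hinf : (((fun m : ℕ => fun P : Finset R =>
    P.filter (fun r => ∀ r' ∈ P, y m r' ≤ y m r)) ⁻¹' {col}) : Set ℕ).Infinite :=
    Set.infinite_coe_iff.1 hcol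
  obtain ⟨D, hD⟩ := hinf.nonempty
  obtain ⟨H, hDH⟩ : ∃ H, D < H := ⟨D + 1, Nat.lt_succ_self D⟩
  obtain ⟨D', hD', hHD'⟩ := hinf.exists_gt H
  simp only [Set.mem_preimage, Set.mem_singleton_iff] at hD hD'
  -- the support of the coefficients
  set P : Finset R := Finset.univ.filter (fun r => 0 < a H r) with hP
  have hPiff : ∀ r, r ∈ P ↔ 0 < a H r := by intro r; simp [hP]
  have hPne : P.Nonempty := by
    by_contra hne
    rw [Finset.not_nonempty_iff_eq_empty] at hne
    have : ∀ r, a H r = 0 := by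
      intro r
      by_contra h
      have : r ∈ P := (hPiff r).2 (lt_of_le_of_ne (ha0 H r) (Ne.symm h))
      rw [hne] at this
      simp at this
    have h1 := ha1 H
    simp [this] at h1
  have hSeq : P.filter (fun r => ∀ r' ∈ P, y D r' ≤ y D r) =
      P.filter (fun r => ∀ r' ∈ P, y D' r' ≤ y D' r) := by
    have e1 := congrFun hD P
    have e2 := congrFun hD' P
    rw [e1, e2]
  set S := P.filter (fun r => ∀ r' ∈ P, y D r' ≤ y D r) with hS
  -- the first cone
  have hC1 : (∑ r ∈ S, a H r • (r : J → ℝ)) ∈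
      coneL Y {l | ∀ D ∈ l, D ≤ H} K (q H) (p H) := by
    have hst := coneL_stCone Y {l | ∀ D ∈ l, D ≤ H} K (q H) (p H) (by
      intro l hl
      simp only [Set.mem_ofPred_eq, List.mem_append, List.mem_singleton] at hl ⊢
      rintro E (hE | hE)
      · exact hl E hE
      · omega)
    have hstab := coneL_stab Y {l | ∀ D ∈ l, D ≤ H} K (q H) (p H) D (by
      intro l hl
      simp only [Set.mem_ofPred_eq, List.mem_append, List.mem_singleton] at hl ⊢
      rintro E (hE | hE)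
      · exact hl E hE
      · omega)
    refine dominant_mem (fun r : R => (r : J → ℝ)) (hy0 D) hst hstab (hyC D _ hst) (a H) (ha0 H)
      P hPiff hPne ?_
    rw [← hav H]
    exact hstab _ (hvC H _ hst (fun l hl => h1 H l hl))
  -- the second cone
  have hC2 : (∑ r ∈ S, a H r • (r : J → ℝ)) ∈
      coneL Y Set.univ K (p H) (q H) := by
    rw [hSeq]
    have hst2 := coneL_stCone Y {l | ∃ D ∈ l, H < D} K (p H) (q H) (by
      intro l hl
      simp only [Set.mem_ofPred_eq, List.mem_append, List.mem_singleton] at hl ⊢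
      obtain ⟨E, hE, hE2⟩ := hl
      exact ⟨E, Or.inl hE, hE2⟩)
    have hst := coneL_stCone Y Set.univ K (p H) (q H) (fun _ _ => Set.mem_univ _)
    have hstab := coneL_stab Y Set.univ K (p H) (q H) D' (fun _ _ => Set.mem_univ _)
    refine dominant_mem (fun r : R => (r : J → ℝ)) (hy0 D') hst hstab (hyC D' _ hst) (a H) (ha0 H)
      P hPiff hPne ?_
    rw [← hav H]
    have hv2 := hvC H _ hst2 (fun l hl => h2 H l hl)
    intro l _
    have := hv2 (l ++ [D']) ⟨D', by simp, hHD'⟩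
    rwa [act_append] at this
  -- contradiction
  have e1 := hC1 [] (by simp)
  have e2 := hC2 [] (Set.mem_univ _)
  simp only [act, List.foldr_nil] at e1 e2
  set u := ∑ r ∈ S, a H r • (r : J → ℝ) with hu
  have hu0 : ∀ i, 0 ≤ u i := by
    intro i
    rw [hu, Finset.sum_apply]
    exact Finset.sum_nonneg (fun r _ => mul_nonneg (ha0 H r) (r.2.1.1.1 i))
  have hSne : S.Nonempty := by
    obtain ⟨r0, hr0, hmax⟩ := P.exists_max_image (y D) hPne
    exact ⟨r0, by rw [hS, Finset.mem_filter]; exact ⟨hr0, hmax⟩⟩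
  have husum : 0 < ∑ i, u i := by
    have : ∑ i, u i = ∑ r ∈ S, a H r := by
      rw [hu]
      simp only [Finset.sum_apply, Pi.smul_apply, smul_eq_mul]
      rw [Finset.sum_comm]
      refine Finset.sum_congr rfl (fun r _ => ?_)
      rw [← Finset.mul_sum, r.2.1.1.2, mul_one]
    rw [this]
    refine Finset.sum_pos (fun r hr => ?_) hSne
    exact (hPiff r).1 (Finset.mem_filter.1 hr).1
  have hpu : 0 ≤ p H ⬝ᵥ u := Finset.sum_nonneg (fun i _ => mul_nonneg (hp H i) (hu0 i))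
  have hqu : 0 ≤ q H ⬝ᵥ u := Finset.sum_nonneg (fun i _ => mul_nonneg (hq H i) (hu0 i))
  have hpq0 : 0 < p H ⬝ᵥ u + q H ⬝ᵥ u := by
    have : p H ⬝ᵥ u + q H ⬝ᵥ u = ∑ i, (p H i + q H i) * u i := by
      simp only [dotProduct, ← Finset.sum_add_distrib, add_mul]
    rw [this]
    obtain ⟨i, hi⟩ : ∃ i, 0 < u i := by
      by_contra hcon
      push Not at hcon
      have : ∑ i, u i ≤ 0 := Finset.sum_nonpos (fun i _ => hcon i)
      linarith
    exact Finset.sum_pos' (fun i _ => mul_nonneg (hpq H i).le (hu0 i))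
      ⟨i, Finset.mem_univ i, mul_pos (hpq H i) hi⟩
  nlinarith [mul_nonneg (sub_nonneg.2 hK.le) hpu, mul_nonneg (sub_nonneg.2 hK.le) hqu]

end main

end K9h4.PF
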