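import Pool.Agent.K9h4.PF.Acc

/-!
# Balanced parentheses are not recognized by two-way probabilistic automata
-/

open Finset Matrix

namespace K9h4.PF

theorem F_cols (M : PFA2) (w : List Paren) : (sufOf M (cols w)).F =
    colM M .lmark *ᵥ (wmat (fun c => colM M (.par c)) w *ᵥ (colM M .rmark *ᵥ (Suf.nil M).F)) := by
  have h : (sufOf M (w.map .par ++ [.rmark])).F =
      wmat (fun c => colM M (.par c)) w *ᵥ (colM M .rmark *ᵥ (Suf.nil M).F) := by
    induction w with
    | nil =>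
      have e : wmat (fun c => colM M (.par c)) [] = 1 := by simp [wmat]
      rw [e, Matrix.one_mulVec]
      exact F_cons _ _
    | cons c w ih =>
      have e : wmat (fun c => colM M (.par c)) (c :: w) =
          colM M (.par c) * wmat (fun c => colM M (.par c)) w := by simp [wmat]
      rw [e, ← Matrix.mulVec_mulVec, ← ih]
      exact F_cons _ _
  rw [← h]
  exact F_cons _ _

theorem colM_nn (M : PFA2) (s : Sym) : NN (colM M s) := by
  intro st st1
  unfold colM
  refine Finset.sum_nonneg (fun d _ => ?_)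
  split_ifs
  · exact Finset.prod_nonneg (fun q _ => M.prob_nonneg _ _ _)
  · exact le_rfl

theorem F_nonneg {M : PFA2} (S : Suf M) (st : St M) : 0 ≤ S.F st := by
  unfold Suf.F
  refine Finset.sum_nonneg (fun d _ => ?_)
  split_ifs
  · exact Finset.prod_nonneg (fun q _ => M.prob_nonneg _ _ _)
  · exact le_rfl

theorem hA_nonneg {Q : Type} [DecidableEq Q] (e : Q ⊕ Bool) : 0 ≤ hA e := by
  unfold hA; split_ifs <;> norm_num

theorem hA_le_one {Q : Type} [DecidableEq Q] (e : Q ⊕ Bool) : hA e ≤ 1 := by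
  unfold hA; split_ifs <;> norm_num

theorem full_sums (M : PFA2) (w : List Paren) :
    0 < ∑ st : St M, (sufOf M (cols w)).F st ∧
    ∑ st : St M, hA (st.1 M.start) * (sufOf M (cols w)).F st =
      M.acc w * ∑ st : St M, (sufOf M (cols w)).F st := by
  classical
  have hG := good_sufOf (M := M) (cols w)
  have hen : ∃ v, (sufOf M (cols w)).enter M.start = Sum.inl v := ⟨Sum.inl M.start, rfl⟩
  generalize sufOf M (cols w) = S at hG hen ⊢
  obtain ⟨v0, hv0⟩ := hen
  obtain ⟨hst, hpos⟩ := hG.en _ _ hv0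
  have hp : ∀ v t, 0 ≤ S.wt v t := fun v t => M.prob_nonneg _ _ _
  have hp1 : ∀ v, ∑ t, S.wt v t = 1 := fun v => M.prob_sum _ _
  have hone : ∀ β x, Gs (S.tgt β) S.wt (fun _ => (1 : ℝ)) x = Zs (S.tgt β) S.wt := by
    intro β x
    have := forest_formula (tgt := S.tgt β) S.wt hp hp1 (fun _ => (1 : ℝ)) (fun v => by
      simp only [mul_one]; exact hp1 v) x
    rw [mul_one] at this
    exact this
  have hZ0 : ∀ β, 0 ≤ Zs (S.tgt β) S.wt := by
    intro β
    unfold Zs
    refine Finset.sum_nonneg (fun c _ => ?_)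
    split_ifs
    · exact Finset.prod_nonneg (fun v _ => hp v _)
    · exact le_rfl
  have hsum1 : ∑ st : St M, S.F st = ∑ β : S.V → Bool, if S.Closed β then
      Zs (S.tgt β) S.wt else 0 := by
    have := sum_F S (fun _ => (1 : ℝ)) M.start
    simp only [one_mul] at this
    rw [this]
    refine Finset.sum_congr rfl (fun β _ => ?_)
    rw [hone]
  refine ⟨?_, ?_⟩
  · rw [hsum1]
    obtain ⟨β, hβ, c, hc, hw⟩ := exists_pos_forest hG
    refine Finset.sum_pos' (fun β' _ => ?_) ⟨β, Finset.mem_univ _, ?_⟩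
    · split_ifs
      · exact hZ0 β'
      · exact le_rfl
    · rw [if_pos hβ]
      unfold Zs
      refine Finset.sum_pos' (fun c' _ => ?_) ⟨c, Finset.mem_univ _, ?_⟩
      · split_ifs
        · exact Finset.prod_nonneg (fun v _ => hp v _)
        · exact le_rfl
      · rw [if_pos hc]
        exact Finset.prod_pos (fun v _ => hw v)
  · rw [hsum1, sum_F S hA M.start, Finset.mul_sum]
    refine Finset.sum_congr rfl (fun β _ => ?_)
    by_cases hβ : S.Closed β
    · rw [if_pos hβ, if_pos hβ]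
      have := forest_formula (tgt := S.tgt β) S.wt hp hp1 (harmf S w) (harmonic_acc hG β hβ)
        (S.enter M.start)
      have e1 : harmf S w (S.enter M.start) = M.acc w := by
        rw [hv0]
        unfold harmf
        rw [Sum.elim_inl, hst, hpos]
        rfl
      rw [e1] at this
      rw [mul_comm]
      exact this
    · rw [if_neg hβ, if_neg hβ, mul_zero]

/-- **The acceptance probability is a quotient of nonnegative rational series.** -/
theorem rational_rep (M : PFA2) : ∃ (Mc : Paren → Matrix (St M) (St M) ℝ) (u1 u2 v : St M → ℝ),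
    (∀ c, NN (Mc c)) ∧ (∀ i, 0 ≤ u1 i) ∧ (∀ i, 0 ≤ u2 i) ∧ (∀ i, 0 ≤ v i) ∧
    ∀ w, 0 < (u1 + u2) ⬝ᵥ (wmat Mc w *ᵥ v) ∧
      u1 ⬝ᵥ (wmat Mc w *ᵥ v) = M.acc w * ((u1 + u2) ⬝ᵥ (wmat Mc w *ᵥ v)) := by
  refine ⟨fun c => colM M (.par c), (fun st => hA (st.1 M.start)) ᵥ* colM M .lmark,
    (fun st => 1 - hA (st.1 M.start)) ᵥ* colM M .lmark, colM M .rmark *ᵥ (Suf.nil M).F,
    fun c => colM_nn M _, ?_, ?_, ?_, ?_⟩
  · intro i
    exact Finset.sum_nonneg (fun j _ => mul_nonneg (hA_nonneg _) (colM_nn M _ _ _))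
  · intro i
    exact Finset.sum_nonneg (fun j _ => mul_nonneg (sub_nonneg.2 (hA_le_one _)) (colM_nn M _ _ _))
  · intro i
    exact Finset.sum_nonneg (fun j _ => mul_nonneg (colM_nn M _ _ _) (F_nonneg _ _))
  · intro w
    have e1 : (((fun st : St M => hA (st.1 M.start)) ᵥ* colM M .lmark) +
        ((fun st : St M => 1 - hA (st.1 M.start)) ᵥ* colM M .lmark)) =
        (fun _ : St M => (1 : ℝ)) ᵥ* colM M .lmark := by
      rw [← Matrix.add_vecMul]
      congr 1
      funext st
      simp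
    rw [e1]
    have e2 : ∀ f : St M → ℝ, (f ᵥ* colM M .lmark) ⬝ᵥ (wmat (fun c => colM M (.par c)) w *ᵥ
        (colM M .rmark *ᵥ (Suf.nil M).F)) = ∑ st, f st * (sufOf M (cols w)).F st := by
      intro f
      rw [F_cols, ← Matrix.dotProduct_mulVec]
      rfl
    rw [e2, e2]
    simp only [one_mul]
    exact full_sums M w

/-- **Main theorem.** No two-way probabilistic finite automaton accepts the balanced parenthesis
strings with bounded error. -/
theorem lbal_not_mem : Lbal ∉ TwoPFA := by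
  rintro ⟨M, ε, hε, hM⟩
  obtain ⟨Mc, u1, u2, v, hMc, hu1, hu2, hv, hw⟩ := rational_rep M
  set ε' := max ε (1 / 4) with hε'
  have h1 : ε ≤ ε' := le_max_left _ _
  have h2 : (1 : ℝ) / 4 ≤ ε' := le_max_right _ _
  have h3 : ε' < 1 / 2 := max_lt hε (by norm_num)
  have hpos : 0 < ε' := by linarith
  have hu2w : ∀ w, u2 ⬝ᵥ (wmat Mc w *ᵥ v) =
      (1 - M.acc w) * ((u1 + u2) ⬝ᵥ (wmat Mc w *ᵥ v)) := by
    intro w
    have e1 : (u1 + u2) ⬝ᵥ (wmat Mc w *ᵥ v) =
        u1 ⬝ᵥ (wmat Mc w *ᵥ v) + u2 ⬝ᵥ (wmat Mc w *ᵥ v) := add_dotProduct _ _ _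
    have e2 := (hw w).2
    linarith
  refine words_main Mc hMc u1 u2 v hu1 hu2 hv ((1 - ε') / ε') ?_ (fun w => (hw w).1) ?_ ?_
  · rw [lt_div_iff₀ hpos]
    linarith
  · intro w hb
    have h4 := (hM w).1 hb
    rw [(hw w).2, hu2w w, ← mul_assoc]
    refine mul_le_mul_of_nonneg_right ?_ (hw w).1.le
    rw [div_mul_eq_mul_div, div_le_iff₀ hpos]
    nlinarith
  · intro w hb
    have h4 := (hM w).2 hb
    rw [(hw w).2, hu2w w, ← mul_assoc]
    refine mul_le_mul_of_nonneg_right ?_ (hw w).1.le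
    rw [div_mul_eq_mul_div, div_le_iff₀ hpos]
    nlinarith

end K9h4.PF
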