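import Mathlib

/-!
# Two-way probabilistic finite automata and balanced parentheses: definitions
-/

open Finset

namespace K9h4.PF

/-- The alphabet `{[, ]}`: `lb` is `[`, `rb` is `]`. -/
inductive Paren where
  | lb
  | rb
deriving DecidableEq

instance : Fintype Paren := ⟨{.lb, .rb}, by rintro (_ | _) <;> simp⟩

/-- `w` is balanced: as many `[` as `]`, and every prefix has at least as many `[` as `]`. -/
def Bal (w : List Paren) : Prop :=
  w.count .lb = w.count .rb ∧ ∀ u, u <+: w → u.count .rb ≤ u.count .lb

/-- The language `L_bal`. -/
def Lbal : Set (List Paren) := {w | Bal w}

/-- Tape symbols: left endmarker, right endmarker, letters. -/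
inductive Sym where
  | lmark
  | rmark
  | par (c : Paren)
deriving DecidableEq

instance : Fintype Sym :=
  ⟨{.lmark, .rmark, .par .lb, .par .rb}, by rintro (_ | _ | (_ | _)) <;> simp⟩

/-- Head moves. -/
inductive Move where
  | left
  | stay
  | right
deriving DecidableEq

instance : Fintype Move := ⟨{.left, .stay, .right}, by rintro (_ | _ | _) <;> simp⟩

/-- A two-way probabilistic finite automaton over `{[, ]}`, with real transition probabilities.
`prob q s (q', m)` is the probability of entering state `q'` and making head move `m`, when the
current state is `q` and the scanned symbol is `s`.  `halt q = some true` says that `q` is an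
accepting halting state, `halt q = some false` that it is a rejecting halting state, and
`halt q = none` that it is not halting.  The head never moves left from the left endmarker, nor
right from the right endmarker. -/
structure PFA2 where
  Q : Type
  [fin : Fintype Q]
  [dec : DecidableEq Q]
  start : Q
  halt : Q → Option Bool
  prob : Q → Sym → Q × Move → ℝ
  prob_nonneg : ∀ q s x, 0 ≤ prob q s x
  prob_sum : ∀ q s, ∑ x, prob q s x = 1
  lmark_left : ∀ q q', prob q .lmark (q', .left) = 0
  rmark_right : ∀ q q', prob q .rmark (q', .right) = 0

attribute [instance] PFA2.fin PFA2.dec

/-- The tape holding `w`: cell `0` is the left endmarker, cells `1, …, |w|` hold `w`, and cell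
`|w| + 1` is the right endmarker (later cells are never visited). -/
def tape (w : List Paren) (i : ℕ) : Sym :=
  match i with
  | 0 => .lmark
  | i + 1 => match w[i]? with
    | some c => .par c
    | none => .rmark

/-- New head position. -/
def movePos (m : Move) (i : ℕ) : ℕ :=
  match m with
  | .left => i - 1
  | .stay => i
  | .right => i + 1

/-- The probability that `M`, started in state `q` with its head on cell `i` of the tape holding
`w`, halts in an accepting state within `t` steps. -/
noncomputable def PFA2.accWithin (M : PFA2) (w : List Paren) : ℕ → M.Q → ℕ → ℝ
  | 0, q, _ => if M.halt q = some true then 1 else 0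
  | t + 1, q, i =>
    if M.halt q = some true then 1
    else if M.halt q = some false then 0
    else ∑ x : M.Q × Move, M.prob q (tape w i) x * M.accWithin w t x.1 (movePos x.2 i)

/-- The probability that `M` accepts the input `w` (no bound on the running time): the head
starts on the left endmarker, in the starting state. -/
noncomputable def PFA2.acc (M : PFA2) (w : List Paren) : ℝ :=
  ⨆ t, M.accWithin w t M.start 0

/-- `M` accepts the language `L` with bounded error. -/
def PFA2.Recognizes (M : PFA2) (L : Set (List Paren)) : Prop :=
  ∃ ε : ℝ, ε < 1 / 2 ∧ ∀ w, (w ∈ L → 1 - ε ≤ M.acc w) ∧ (w ∉ L → M.acc w ≤ ε)

/-- The class of languages accepted with bounded error by two-way probabilistic automata. -/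
def TwoPFA : Set (Set (List Paren)) := {L | ∃ M : PFA2, M.Recognizes L}

/-! ### Height machine -/

/-- Follow the height of a parenthesis word; `none` when it would become negative. -/
def height : ℕ → List Paren → Option ℕ
  | h, [] => some h
  | h, .lb :: w => height (h + 1) w
  | 0, .rb :: _ => none
  | h + 1, .rb :: w => height h w

theorem height_append (a b : List Paren) : ∀ h, height h (a ++ b) =
    (height h a).bind (fun h' => height h' b) := by
  induction a with
  | nil => intro h; simp [height]
  | cons c a ih =>
    intro h
    cases c with
    | lb => simp only [List.cons_append, height]; exact ih _
    | rb =>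
      cases h with
      | zero => simp [height]
      | succ h => simp only [List.cons_append, height]; exact ih _

theorem height_spec (w : List Paren) : ∀ h, (∀ u, u <+: w → u.count .rb ≤ h + u.count .lb) →
    height h w = some (h + w.count .lb - w.count .rb) := by
  induction w with
  | nil => intro h _; simp [height]
  | cons c w ih =>
    intro h hp
    cases c with
    | lb =>
      simp only [height]
      rw [ih (h + 1)]
      · simp only [List.count_cons]
        simp
        omega
      · intro u hu
        have := hp (Paren.lb :: u) (by simpa using hu)
        simp only [List.count_cons] at this
        simp at this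
        omega
    | rb =>
      cases h with
      | zero =>
        have := hp [Paren.rb] (by simp)
        simp at this
      | succ h =>
        simp only [height]
        rw [ih h]
        · simp only [List.count_cons]
          simp
          omega
        · intro u hu
          have := hp (Paren.rb :: u) (by simpa using hu)
          simp only [List.count_cons] at this
          simp at this
          omega

theorem height_some (w : List Paren) : ∀ h h', height h w = some h' →
    (∀ u, u <+: w → u.count .rb ≤ h + u.count .lb) ∧ h' + w.count .rb = h + w.count .lb := by
  induction w with
  | nil =>
    intro h h' hh
    simp only [height, Option.some.injEq] at hh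
    subst hh
    refine ⟨?_, by simp⟩
    intro u hu
    have : u = [] := by simpa using hu
    subst this
    simp
  | cons c w ih =>
    intro h h' hh
    cases c with
    | lb =>
      simp only [height] at hh
      obtain ⟨h1, h2⟩ := ih _ _ hh
      refine ⟨?_, ?_⟩
      · intro u hu
        cases u with
        | nil => simp
        | cons d u =>
          rw [List.cons_prefix_cons] at hu
          obtain ⟨rfl, hu⟩ := hu
          have := h1 u hu
          simp only [List.count_cons]
          simp
          omega
      · simp only [List.count_cons]
        simp
        omega
    | rb =>
      cases h with
      | zero => simp [height] at hh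
      | succ h =>
        simp only [height] at hh
        obtain ⟨h1, h2⟩ := ih _ _ hh
        refine ⟨?_, ?_⟩
        · intro u hu
          cases u with
          | nil => simp
          | cons d u =>
            rw [List.cons_prefix_cons] at hu
            obtain ⟨rfl, hu⟩ := hu
            have := h1 u hu
            simp only [List.count_cons]
            simp
            omega
        · simp only [List.count_cons]
          simp
          omega

theorem bal_iff (w : List Paren) : Bal w ↔ height 0 w = some 0 := by
  constructor
  · rintro ⟨h1, h2⟩
    rw [height_spec w 0 (by simpa using h2), h1]
    simp
  · intro h
    obtain ⟨h1, h2⟩ := height_some w 0 0 h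
    exact ⟨by omega, by simpa using h1⟩

theorem height_replicate_lb (k : ℕ) : ∀ h, height h (List.replicate k .lb) = some (h + k) := by
  induction k with
  | zero => intro h; simp [height]
  | succ k ih =>
    intro h
    rw [List.replicate_succ]
    simp only [height]
    rw [ih]
    congr 1
    omega

theorem height_replicate_rb (k : ℕ) : ∀ h, height h (List.replicate k .rb) =
    if k ≤ h then some (h - k) else none := by
  induction k with
  | zero => intro h; simp [height]
  | succ k ih =>
    intro h
    rw [List.replicate_succ]
    cases h with
    | zero => simp [height]
    | succ h =>
      simp only [height]
      rw [ih]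
      by_cases hk : k ≤ h
      · rw [if_pos hk, if_pos (by omega)]
        congr 1
        omega
      · rw [if_neg hk, if_neg (by omega)]

end K9h4.PF
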