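import Pool.Agent.K9h4.PF.LA
import Pool.Agent.K9h4.PF.Model

/-!
# From words to the abstract linear algebra theorem
-/

open Matrix Finset

namespace K9h4.PF

section supp

variable {S : Type*} [Fintype S] [DecidableEq S]

/-- entrywise nonnegative -/
def NN (A : Matrix S S ℝ) : Prop := ∀ i j, 0 ≤ A i j

/-- same support -/
def SS (A B : Matrix S S ℝ) : Prop := ∀ i j, 0 < A i j ↔ 0 < B i j

omit [DecidableEq S] in
theorem NN.mul {A B : Matrix S S ℝ} (hA : NN A) (hB : NN B) : NN (A * B) := fun i j => by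
  rw [Matrix.mul_apply]
  exact Finset.sum_nonneg (fun k _ => mul_nonneg (hA i k) (hB k j))

theorem NN.pow {A : Matrix S S ℝ} (hA : NN A) (k : ℕ) : NN (A ^ k) := pow_nonneg_entries hA k

omit [DecidableEq S] in
theorem mul_pos_iff' {A B : Matrix S S ℝ} (hA : NN A) (hB : NN B) (i j : S) :
    0 < (A * B) i j ↔ ∃ k, 0 < A i k ∧ 0 < B k j := by
  rw [Matrix.mul_apply]
  constructor
  · intro h
    by_contra hcon
    push Not at hcon
    have : ∑ k, A i k * B k j = 0 := by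
      refine Finset.sum_eq_zero (fun k _ => ?_)
      rcases (hA i k).lt_or_eq with h0 | h0
      · have := hcon k h0
        rw [le_antisymm this (hB k j), mul_zero]
      · rw [← h0, zero_mul]
    linarith
  · rintro ⟨k, h1, h2⟩
    exact Finset.sum_pos' (fun k _ => mul_nonneg (hA i k) (hB k j))
      ⟨k, Finset.mem_univ k, mul_pos h1 h2⟩

omit [DecidableEq S] in
theorem mulVec_pos_iff {A : Matrix S S ℝ} {v : S → ℝ} (hA : NN A) (hv : ∀ i, 0 ≤ v i) (i : S) :
    0 < (A *ᵥ v) i ↔ ∃ k, 0 < A i k ∧ 0 < v k := by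
  simp only [Matrix.mulVec, dotProduct]
  constructor
  · intro h
    by_contra hcon
    push Not at hcon
    have : ∑ k, A i k * v k = 0 := by
      refine Finset.sum_eq_zero (fun k _ => ?_)
      rcases (hA i k).lt_or_eq with h0 | h0
      · have := hcon k h0
        rw [le_antisymm this (hv k), mul_zero]
      · rw [← h0, zero_mul]
    linarith
  · rintro ⟨k, h1, h2⟩
    exact Finset.sum_pos' (fun k _ => mul_nonneg (hA i k) (hv k))
      ⟨k, Finset.mem_univ k, mul_pos h1 h2⟩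

omit [DecidableEq S] in
theorem vecMul_pos_iff {A : Matrix S S ℝ} {v : S → ℝ} (hA : NN A) (hv : ∀ i, 0 ≤ v i) (j : S) :
    0 < (v ᵥ* A) j ↔ ∃ k, 0 < v k ∧ 0 < A k j := by
  simp only [Matrix.vecMul, dotProduct]
  constructor
  · intro h
    by_contra hcon
    push Not at hcon
    have : ∑ k, v k * A k j = 0 := by
      refine Finset.sum_eq_zero (fun k _ => ?_)
      rcases (hv k).lt_or_eq with h0 | h0
      · have := hcon k h0
        rw [le_antisymm this (hA k j), mul_zero]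
      · rw [← h0, zero_mul]
    linarith
  · rintro ⟨k, h1, h2⟩
    exact Finset.sum_pos' (fun k _ => mul_nonneg (hv k) (hA k j))
      ⟨k, Finset.mem_univ k, mul_pos h1 h2⟩

omit [DecidableEq S] in
theorem SS.mul {A A' B B' : Matrix S S ℝ} (hA : NN A) (hA' : NN A') (hB : NN B) (hB' : NN B')
    (h : SS A A') (h' : SS B B') : SS (A * B) (A' * B') := fun i j => by
  rw [mul_pos_iff' hA hB, mul_pos_iff' hA' hB']
  refine exists_congr (fun k => ?_)
  rw [h i k, h' k j]

omit [Fintype S] [DecidableEq S] in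
theorem SS.refl (A : Matrix S S ℝ) : SS A A := fun _ _ => Iff.rfl

omit [Fintype S] [DecidableEq S] in
theorem SS.symm {A B : Matrix S S ℝ} (h : SS A B) : SS B A := fun i j => (h i j).symm

omit [Fintype S] [DecidableEq S] in
theorem SS.trans {A B C : Matrix S S ℝ} (h : SS A B) (h' : SS B C) : SS A C :=
  fun i j => (h i j).trans (h' i j)

theorem exists_idem {M : Matrix S S ℝ} (hM : NN M) :
    ∃ N, 1 ≤ N ∧ ∀ D, 1 ≤ D → SS (M ^ (N * D)) (M ^ N) := by
  obtain ⟨a', b', hab', hf⟩ := Finite.exists_ne_map_eq_of_infinite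
    (fun m : ℕ => fun i j : S => decide (0 < (M ^ (m + 1)) i j))
  obtain ⟨a, b, hab, hf⟩ : ∃ a b : ℕ, a < b ∧
      (fun i j : S => decide (0 < (M ^ (a + 1)) i j)) =
      (fun i j : S => decide (0 < (M ^ (b + 1)) i j)) := by
    rcases lt_or_gt_of_ne hab' with h | h
    · exact ⟨a', b', h, hf⟩
    · exact ⟨b', a', h, hf.symm⟩
  have hss : SS (M ^ (a + 1)) (M ^ (b + 1)) := by
    intro i j
    have := congrFun (congrFun hf i) j
    simpa using this
  obtain ⟨d, hd⟩ : ∃ d, b = a + d := ⟨b - a, by omega⟩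
  have hd1 : 1 ≤ d := by omega
  have hstep : ∀ m, a + 1 ≤ m → SS (M ^ m) (M ^ (m + d)) := by
    intro m hm
    have e1 : M ^ m = M ^ (a + 1) * M ^ (m - (a + 1)) := by
      rw [← pow_add]; congr 1; omega
    have e2 : M ^ (m + d) = M ^ (b + 1) * M ^ (m - (a + 1)) := by
      rw [← pow_add]; congr 1; omega
    rw [e1, e2]
    exact SS.mul (hM.pow _) (hM.pow _) (hM.pow _) (hM.pow _) hss (SS.refl _)
  have hmult : ∀ k m, a + 1 ≤ m → SS (M ^ m) (M ^ (m + k * d)) := by
    intro k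
    induction k with
    | zero => intro m _; simpa using SS.refl _
    | succ k ih =>
      intro m hm
      have := (ih m hm).trans (hstep (m + k * d) (by omega))
      have e : m + (k + 1) * d = m + k * d + d := by ring
      rw [e]
      exact this
  refine ⟨(a + 1) * d, by nlinarith, ?_⟩
  intro D hD
  obtain ⟨D', rfl⟩ : ∃ D', D = D' + 1 := ⟨D - 1, by omega⟩
  have hle : a + 1 ≤ (a + 1) * d := by nlinarith
  have := (hmult ((a + 1) * D') ((a + 1) * d) hle).symm
  have e : (a + 1) * d * (D' + 1) = (a + 1) * d + (a + 1) * D' * d := by ring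
  rw [e]
  exact this

end supp

section restrict

variable {S : Type*} [Fintype S] [DecidableEq S]

omit [DecidableEq S] in
theorem sum_dite_sub (P : S → Prop) [DecidablePred P] (g : {i // P i} → ℝ) :
    ∑ x : S, (if h : P x then g ⟨x, h⟩ else 0) = ∑ j, g j := by
  rw [← Finset.sum_filter_add_sum_filter_not Finset.univ P]
  have h1 : ∑ x ∈ Finset.univ.filter (fun x => ¬ P x), (if h : P x then g ⟨x, h⟩ else 0) = 0 := by
    refine Finset.sum_eq_zero (fun x hx => ?_)
    rw [dif_neg (Finset.mem_filter.1 hx).2]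
  rw [h1, add_zero, Finset.sum_subtype (Finset.univ.filter P) (p := P) (by simp)]
  refine Finset.sum_congr rfl (fun x _ => ?_)
  rw [dif_pos x.2]

/-- restriction of a matrix to the states satisfying `P` -/
def resM (P : S → Prop) (A : Matrix S S ℝ) : Matrix {i // P i} {i // P i} ℝ :=
  fun i j => A i j

theorem act_restrict (Y : ℕ → Matrix S S ℝ) (hY : ∀ D, NN (Y D)) (F B : S → Prop)
    [DecidablePred F] [DecidablePred B]
    (hF : ∀ D i j, F i → 0 < Y D i j → F j) (hB : ∀ D i j, B j → 0 < Y D i j → B i)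
    (w : S → ℝ) (hw : ∀ i, ¬ B i → w i = 0) (l : List ℕ) :
    ∀ i, F i → act Y l w i = if h : F i ∧ B i then
      act (fun D => resM (fun i => F i ∧ B i) (Y D)) l (fun i => w i) ⟨i, h⟩ else 0 := by
  induction l with
  | nil =>
    intro i hi
    simp only [act, List.foldr_nil]
    split_ifs with h
    · rfl
    · exact hw i (fun hb => h ⟨hi, hb⟩)
  | cons D l ih =>
    intro i hi
    have e1 : act Y (D :: l) w = Y D *ᵥ act Y l w := rfl
    rw [e1]
    simp only [Matrix.mulVec, dotProduct]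
    have e2 : ∀ j, Y D i j * act Y l w j =
        if h : F j ∧ B j then Y D i j *
          act (fun D => resM (fun i => F i ∧ B i) (Y D)) l (fun i => w i) ⟨j, h⟩ else 0 := by
      intro j
      rcases (hY D i j).lt_or_eq with h0 | h0
      · rw [ih j (hF D i j hi h0)]
        split_ifs with h
        · rfl
        · simp
      · rw [← h0]
        split_ifs <;> simp
    simp_rw [e2]
    split_ifs with h
    · have e3 : act (fun D => resM (fun i => F i ∧ B i) (Y D)) (D :: l) (fun i => w i) ⟨i, h⟩ =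
          ∑ j : {i // F i ∧ B i}, Y D i j *
            act (fun D => resM (fun i => F i ∧ B i) (Y D)) l (fun i => w i) j := rfl
      rw [e3]
      exact sum_dite_sub (fun i => F i ∧ B i) (fun j => Y D i j *
            act (fun D => resM (fun i => F i ∧ B i) (Y D)) l (fun i => w i) j)
    · refine Finset.sum_eq_zero (fun j _ => ?_)
      split_ifs with h'
      · rcases (hY D i j).lt_or_eq with h0 | h0
        · exact absurd ⟨hi, hB D i j h'.2 h0⟩ h
        · rw [← h0, zero_mul]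
      · rfl

theorem dot_restrict (Y : ℕ → Matrix S S ℝ) (hY : ∀ D, NN (Y D)) (F B : S → Prop)
    [DecidablePred F] [DecidablePred B]
    (hF : ∀ D i j, F i → 0 < Y D i j → F j) (hB : ∀ D i j, B j → 0 < Y D i j → B i)
    (w : S → ℝ) (hw : ∀ i, ¬ B i → w i = 0) (f : S → ℝ) (hf : ∀ i, ¬ F i → f i = 0)
    (l : List ℕ) :
    f ⬝ᵥ act Y l w = (fun i : {i // F i ∧ B i} => f i) ⬝ᵥ
      act (fun D => resM (fun i => F i ∧ B i) (Y D)) l (fun i => w i) := by
  simp only [dotProduct]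
  rw [← sum_dite_sub (fun i => F i ∧ B i) (fun i => f i *
    act (fun D => resM (fun i => F i ∧ B i) (Y D)) l (fun i => w i) i)]
  refine Finset.sum_congr rfl (fun i _ => ?_)
  by_cases hi : F i
  · rw [act_restrict Y hY F B hF hB w hw l i hi]
    split_ifs <;> simp
  · rw [hf i hi, zero_mul, dif_neg (fun h => hi h.1)]

end restrict

section words

variable {S : Type*} [Fintype S] [DecidableEq S]

/-- the matrix of a word -/
def wmat (Mc : Paren → Matrix S S ℝ) (w : List Paren) : Matrix S S ℝ := (w.map Mc).prod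

theorem wmat_append (Mc : Paren → Matrix S S ℝ) (a b : List Paren) :
    wmat Mc (a ++ b) = wmat Mc a * wmat Mc b := by
  simp [wmat, List.map_append, List.prod_append]

theorem wmat_replicate (Mc : Paren → Matrix S S ℝ) (k : ℕ) (c : Paren) :
    wmat Mc (List.replicate k c) = Mc c ^ k := by
  simp [wmat]

/-- `]^{Nd} [^{Nd}` -/
def tw (N d : ℕ) : List Paren := List.replicate (N * d) .rb ++ List.replicate (N * d) .lb

/-- `(]^N [^N)^k` -/
def twp (N k : ℕ) : List Paren := (List.replicate k (tw N 1)).flatten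

/-- the word of `Y D` -/
def yw (N p D : ℕ) : List Paren := tw N (D + 1) ++ twp N p

/-- the whole word -/
def bigw (N p H : ℕ) (l : List ℕ) : List Paren :=
  List.replicate (N * (H + 1)) .lb ++ (yw N p 0 ++ (l.flatMap (yw N p) ++
    (yw N p 0 ++ List.replicate (N * (H + 1)) .rb)))

theorem height_tw (N : ℕ) (hN : 1 ≤ N) (H d : ℕ) :
    height (N * H) (tw N d) = if d ≤ H then some (N * H) else none := by
  unfold tw
  rw [height_append, height_replicate_rb]
  by_cases h : d ≤ H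
  · rw [if_pos h, if_pos (Nat.mul_le_mul_left N h), Option.bind_some, height_replicate_lb]
    congr 1
    have := Nat.mul_le_mul_left N h
    omega
  · rw [if_neg h, if_neg]
    · rfl
    · intro hle
      exact h (Nat.le_of_mul_le_mul_left hle (by omega))

theorem height_twp (N : ℕ) (hN : 1 ≤ N) (H k : ℕ) :
    height (N * (H + 1)) (twp N k) = some (N * (H + 1)) := by
  induction k with
  | zero => simp [twp, height]
  | succ k ih =>
    unfold twp at ih ⊢
    rw [List.replicate_succ, List.flatten_cons, height_append, height_tw N hN,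
      if_pos (by omega), Option.bind_some, ih]

theorem height_yw (N p : ℕ) (hN : 1 ≤ N) (H D : ℕ) :
    height (N * (H + 1)) (yw N p D) = if D ≤ H then some (N * (H + 1)) else none := by
  unfold yw
  rw [height_append, height_tw N hN]
  by_cases h : D ≤ H
  · rw [if_pos (by omega), if_pos h, Option.bind_some, height_twp N hN]
  · rw [if_neg (by omega), if_neg h]
    rfl

theorem height_ywl (N p : ℕ) (hN : 1 ≤ N) (H : ℕ) (l : List ℕ) :
    (height (N * (H + 1)) (l.flatMap (yw N p)) = some (N * (H + 1)) ∧ ∀ D ∈ l, D ≤ H) ∨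
    (height (N * (H + 1)) (l.flatMap (yw N p)) = none ∧ ¬ ∀ D ∈ l, D ≤ H) := by
  induction l with
  | nil => left; simp [height]
  | cons D l ih =>
    rw [List.flatMap_cons, height_append, height_yw N p hN]
    by_cases h : D ≤ H
    · rw [if_pos h, Option.bind_some]
      rcases ih with ⟨h1, h2⟩ | ⟨h1, h2⟩
      · left
        refine ⟨h1, ?_⟩
        intro E hE
        rcases List.mem_cons.1 hE with rfl | hE
        · exact h
        · exact h2 E hE
      · right
        refine ⟨h1, ?_⟩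
        intro h3
        exact h2 (fun E hE => h3 E (List.mem_cons_of_mem _ hE))
    · right
      rw [if_neg h]
      refine ⟨rfl, ?_⟩
      intro h3
      exact h (h3 D (List.mem_cons_self))

theorem bal_bigw (N p : ℕ) (hN : 1 ≤ N) (H : ℕ) (l : List ℕ) :
    Bal (bigw N p H l) ↔ ∀ D ∈ l, D ≤ H := by
  rw [bal_iff]
  unfold bigw
  rw [height_append, height_replicate_lb, Option.bind_some, zero_add, height_append,
    height_yw N p hN, if_pos (Nat.zero_le _), Option.bind_some, height_append]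
  rcases height_ywl N p hN H l with ⟨h1, h2⟩ | ⟨h1, h2⟩
  · rw [h1, Option.bind_some, height_append, height_yw N p hN, if_pos (Nat.zero_le _),
      Option.bind_some, height_replicate_rb, if_pos le_rfl]
    simpa using h2
  · rw [h1]
    simpa using h2

/-- the matrix of `]^{Nd} [^{Nd}` -/
def Tm (Mc : Paren → Matrix S S ℝ) (N d : ℕ) : Matrix S S ℝ := Mc .rb ^ (N * d) * Mc .lb ^ (N * d)

theorem wmat_tw (Mc : Paren → Matrix S S ℝ) (N d : ℕ) : wmat Mc (tw N d) = Tm Mc N d := by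
  rw [tw, wmat_append, wmat_replicate, wmat_replicate, Tm]

theorem wmat_twp (Mc : Paren → Matrix S S ℝ) (N k : ℕ) : wmat Mc (twp N k) = Tm Mc N 1 ^ k := by
  induction k with
  | zero => simp [twp, wmat]
  | succ k ih =>
    unfold twp at ih ⊢
    rw [List.replicate_succ, List.flatten_cons, wmat_append, ih, wmat_tw, pow_succ']

/-- the matrix `Y D` -/
def Ym (Mc : Paren → Matrix S S ℝ) (N p D : ℕ) : Matrix S S ℝ := Tm Mc N (D + 1) * Tm Mc N 1 ^ p

theorem wmat_yw (Mc : Paren → Matrix S S ℝ) (N p D : ℕ) :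
    wmat Mc (yw N p D) = Ym Mc N p D := by
  rw [yw, wmat_append, wmat_tw, wmat_twp, Ym]

theorem wmat_ywl (Mc : Paren → Matrix S S ℝ) (N p : ℕ) (l : List ℕ) (v : S → ℝ) :
    wmat Mc (l.flatMap (yw N p)) *ᵥ v = act (Ym Mc N p) l v := by
  induction l with
  | nil => simp [wmat, act]
  | cons D l ih =>
    rw [List.flatMap_cons, wmat_append, wmat_yw, ← Matrix.mulVec_mulVec, ih]
    rfl

theorem dot_bigw (Mc : Paren → Matrix S S ℝ) (N p H : ℕ) (l : List ℕ) (u v : S → ℝ) :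
    u ⬝ᵥ (wmat Mc (bigw N p H l) *ᵥ v) =
      (u ᵥ* (Mc .lb ^ (N * (H + 1)) * Ym Mc N p 0)) ⬝ᵥ
        act (Ym Mc N p) l ((Ym Mc N p 0 * Mc .rb ^ (N * (H + 1))) *ᵥ v) := by
  unfold bigw
  rw [wmat_append, wmat_append, wmat_append, wmat_append, wmat_replicate, wmat_replicate,
    wmat_yw, ← Matrix.dotProduct_mulVec, ← wmat_ywl]
  simp only [Matrix.mulVec_mulVec, Matrix.mul_assoc]

/-- **No pair of nonnegative rational series separates the balanced words.** -/
theorem words_main (Mc : Paren → Matrix S S ℝ) (hnn : ∀ c, NN (Mc c)) (u1 u2 v : S → ℝ)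
    (hu1 : ∀ i, 0 ≤ u1 i) (hu2 : ∀ i, 0 ≤ u2 i) (hv : ∀ i, 0 ≤ v i) (K : ℝ) (hK : 1 < K)
    (hZ : ∀ w, 0 < (u1 + u2) ⬝ᵥ (wmat Mc w *ᵥ v))
    (h1 : ∀ w, Bal w → K * (u2 ⬝ᵥ (wmat Mc w *ᵥ v)) ≤ u1 ⬝ᵥ (wmat Mc w *ᵥ v))
    (h2 : ∀ w, ¬ Bal w → K * (u1 ⬝ᵥ (wmat Mc w *ᵥ v)) ≤ u2 ⬝ᵥ (wmat Mc w *ᵥ v)) : False := by
  classical
  -- a common exponent
  obtain ⟨N1, hN1, hid1⟩ := exists_idem (hnn .lb)
  obtain ⟨N2, hN2, hid2⟩ := exists_idem (hnn .rb)
  set N := N1 * N2 with hN
  have hN0 : 1 ≤ N := Nat.one_le_iff_ne_zero.2 (by positivity)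
  have hlb : ∀ D, 1 ≤ D → SS (Mc .lb ^ (N * D)) (Mc .lb ^ N) := by
    intro D hD
    have e1 := hid1 (N2 * D) (Nat.one_le_iff_ne_zero.2 (by positivity))
    have e2 := hid1 N2 hN2
    rw [← mul_assoc] at e1
    exact e1.trans e2.symm
  have hrb : ∀ D, 1 ≤ D → SS (Mc .rb ^ (N * D)) (Mc .rb ^ N) := by
    intro D hD
    have e1 := hid2 (N1 * D) (Nat.one_le_iff_ne_zero.2 (by positivity))
    have e2 := hid2 N1 hN1
    rw [show N2 * (N1 * D) = N * D by rw [hN]; ring] at e1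
    rw [show N2 * N1 = N by rw [hN]; ring] at e2
    exact e1.trans e2.symm
  have hTnn : ∀ d, NN (Tm Mc N d) := fun d => ((hnn .rb).pow _).mul ((hnn .lb).pow _)
  have hTss : ∀ D, SS (Tm Mc N (D + 1)) (Tm Mc N 1) := by
    intro D
    refine SS.mul ((hnn .rb).pow _) ((hnn .rb).pow _) ((hnn .lb).pow _) ((hnn .lb).pow _) ?_ ?_
    · exact (hrb _ (by omega)).trans (hrb 1 le_rfl).symm
    · exact (hlb _ (by omega)).trans (hlb 1 le_rfl).symm
  obtain ⟨p1, hp1, hidp⟩ := exists_idem (hTnn 1)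
  obtain ⟨p, rfl⟩ : ∃ p, p1 = p + 1 := ⟨p1 - 1, by omega⟩
  set Y := Ym Mc N p with hY
  have hYnn : ∀ D, NN (Y D) := fun D => (hTnn _).mul ((hTnn 1).pow _)
  have hYss : ∀ D, SS (Y D) (Y 0) := by
    intro D
    exact SS.mul (hTnn _) (hTnn _) ((hTnn 1).pow _) ((hTnn 1).pow _)
      ((hTss D).trans (hTss 0).symm) (SS.refl _)
  have hE : Y 0 = Tm Mc N 1 ^ (p + 1) := by
    rw [hY, Ym, zero_add, pow_succ']
  have hEE : SS (Y 0 * Y 0) (Y 0) := by
    rw [hE, ← pow_add, ← mul_two]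
    exact hidp 2 (by norm_num)
  -- forward and backward reachability
  set u : S → ℝ := u1 + u2 with hu
  have hu0 : ∀ i, 0 ≤ u i := fun i => add_nonneg (hu1 i) (hu2 i)
  have hlN : NN (Mc .lb ^ N * Y 0) := ((hnn .lb).pow _).mul (hYnn 0)
  have hrN : NN (Y 0 * Mc .rb ^ N) := (hYnn 0).mul ((hnn .rb).pow _)
  set F : S → Prop := fun i => 0 < (u ᵥ* (Mc .lb ^ N * Y 0)) i with hF
  set B : S → Prop := fun i => 0 < ((Y 0 * Mc .rb ^ N) *ᵥ v) i with hB
  have hFY : ∀ D i j, F i → 0 < Y D i j → F j := by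
    intro D i j hi hij
    have hij0 := (hYss D i j).1 hij
    simp only [hF] at hi ⊢
    rw [vecMul_pos_iff hlN hu0] at hi ⊢
    obtain ⟨k, hk1, hk2⟩ := hi
    refine ⟨k, hk1, ?_⟩
    have h3 : 0 < (Mc .lb ^ N * Y 0 * Y 0) k j := (mul_pos_iff' hlN (hYnn 0) k j).2 ⟨i, hk2, hij0⟩
    rw [mul_assoc] at h3
    exact (SS.mul ((hnn .lb).pow _) ((hnn .lb).pow _) ((hYnn 0).mul (hYnn 0)) (hYnn 0)
      (SS.refl _) hEE k j).1 h3
  have hBY : ∀ D i j, B j → 0 < Y D i j → B i := by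
    intro D i j hj hij
    have hij0 := (hYss D i j).1 hij
    simp only [hB] at hj ⊢
    rw [mulVec_pos_iff hrN hv] at hj ⊢
    obtain ⟨k, hk1, hk2⟩ := hj
    refine ⟨k, ?_, hk2⟩
    have h3 : 0 < (Y 0 * (Y 0 * Mc .rb ^ N)) i k := (mul_pos_iff' (hYnn 0) hrN i k).2 ⟨j, hij0, hk1⟩
    rw [← mul_assoc] at h3
    exact (SS.mul ((hYnn 0).mul (hYnn 0)) (hYnn 0) ((hnn .rb).pow _) ((hnn .rb).pow _)
      hEE (SS.refl _) i k).1 h3
  -- the vectors
  have hFsupp : ∀ H i, 0 < (u ᵥ* (Mc .lb ^ (N * (H + 1)) * Y 0)) i ↔ F i := by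
    intro H i
    simp only [hF]
    rw [vecMul_pos_iff (((hnn .lb).pow _).mul (hYnn 0)) hu0, vecMul_pos_iff hlN hu0]
    refine exists_congr (fun k => ?_)
    rw [SS.mul ((hnn .lb).pow _) ((hnn .lb).pow _) (hYnn 0) (hYnn 0)
      (hlb (H + 1) (by omega)) (SS.refl _) k i]
  have hBsupp : ∀ H i, 0 < ((Y 0 * Mc .rb ^ (N * (H + 1))) *ᵥ v) i ↔ B i := by
    intro H i
    simp only [hB]
    rw [mulVec_pos_iff ((hYnn 0).mul ((hnn .rb).pow _)) hv, mulVec_pos_iff hrN hv]
    refine exists_congr (fun k => ?_)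
    rw [SS.mul (hYnn 0) (hYnn 0) ((hnn .rb).pow _) ((hnn .rb).pow _)
      (SS.refl _) (hrb (H + 1) (by omega)) i k]
  have hvm : ∀ (f : S → ℝ), (∀ i, 0 ≤ f i) → ∀ H i,
      0 ≤ (f ᵥ* (Mc .lb ^ (N * (H + 1)) * Y 0)) i := by
    intro f hf H i
    simp only [Matrix.vecMul, dotProduct]
    exact Finset.sum_nonneg (fun k _ => mul_nonneg (hf k)
      ((((hnn .lb).pow _).mul (hYnn 0)) k i))
  have hadd : ∀ H i, (u ᵥ* (Mc .lb ^ (N * (H + 1)) * Y 0)) i =
      (u1 ᵥ* (Mc .lb ^ (N * (H + 1)) * Y 0)) i + (u2 ᵥ* (Mc .lb ^ (N * (H + 1)) * Y 0)) i := by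
    intro H i
    rw [hu, Matrix.add_vecMul]
    rfl
  have hw0 : ∀ H i, ¬ B i → ((Y 0 * Mc .rb ^ (N * (H + 1))) *ᵥ v) i = 0 := by
    intro H i hi
    have h3 : 0 ≤ ((Y 0 * Mc .rb ^ (N * (H + 1))) *ᵥ v) i := by
      simp only [Matrix.mulVec, dotProduct]
      exact Finset.sum_nonneg (fun k _ => mul_nonneg
        (((hYnn 0).mul ((hnn .rb).pow _)) i k) (hv k))
    by_contra hne
    exact hi ((hBsupp H i).1 (lt_of_le_of_ne h3 (Ne.symm hne)))
  have hf1 : ∀ H i, ¬ F i → (u1 ᵥ* (Mc .lb ^ (N * (H + 1)) * Y 0)) i = 0 := by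
    intro H i hi
    have h3 := hvm u1 hu1 H i
    have h4 := hvm u2 hu2 H i
    have h5 := hadd H i
    by_contra hne
    have h6 := lt_of_le_of_ne h3 (Ne.symm hne)
    exact hi ((hFsupp H i).1 (by linarith))
  have hf2 : ∀ H i, ¬ F i → (u2 ᵥ* (Mc .lb ^ (N * (H + 1)) * Y 0)) i = 0 := by
    intro H i hi
    have h3 := hvm u1 hu1 H i
    have h4 := hvm u2 hu2 H i
    have h5 := hadd H i
    by_contra hne
    have h6 := lt_of_le_of_ne h4 (Ne.symm hne)
    exact hi ((hFsupp H i).1 (by linarith))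
  have hd1 : ∀ H l, u1 ⬝ᵥ (wmat Mc (bigw N p H l) *ᵥ v) =
      (fun i : {i // F i ∧ B i} => (u1 ᵥ* (Mc .lb ^ (N * (H + 1)) * Y 0)) i) ⬝ᵥ
      act (fun D => resM (fun i => F i ∧ B i) (Y D)) l
        (fun i => ((Y 0 * Mc .rb ^ (N * (H + 1))) *ᵥ v) i) := by
    intro H l
    rw [dot_bigw, dot_restrict Y hYnn F B hFY hBY _ (hw0 H) _ (hf1 H) l]
  have hd2 : ∀ H l, u2 ⬝ᵥ (wmat Mc (bigw N p H l) *ᵥ v) =
      (fun i : {i // F i ∧ B i} => (u2 ᵥ* (Mc .lb ^ (N * (H + 1)) * Y 0)) i) ⬝ᵥ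
      act (fun D => resM (fun i => F i ∧ B i) (Y D)) l
        (fun i => ((Y 0 * Mc .rb ^ (N * (H + 1))) *ᵥ v) i) := by
    intro H l
    rw [dot_bigw, dot_restrict Y hYnn F B hFY hBY _ (hw0 H) _ (hf2 H) l]
  -- nonempty
  have hne : Nonempty {i // F i ∧ B i} := by
    by_contra hcon
    have hemp : IsEmpty {i // F i ∧ B i} := not_nonempty_iff.1 hcon
    have h3 := hZ (bigw N p 0 [])
    rw [hu, add_dotProduct, hd1, hd2] at h3
    simp [dotProduct] at h3
  refine la_main (J := {i // F i ∧ B i}) (fun D => resM (fun i => F i ∧ B i) (Y D))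
    (fun D i j => hYnn D i j) (fun D i j => hYss D i j) ?_
    (fun H i => ((Y 0 * Mc .rb ^ (N * (H + 1))) *ᵥ v) i) (fun H i => (hBsupp H i).2 i.2.2)
    (fun H i => (u1 ᵥ* (Mc .lb ^ (N * (H + 1)) * Y 0)) i)
    (fun H i => (u2 ᵥ* (Mc .lb ^ (N * (H + 1)) * Y 0)) i)
    (fun H i => hvm u1 hu1 H i) (fun H i => hvm u2 hu2 H i) ?_ K hK ?_ ?_
  · -- nonzero rows
    rintro ⟨i, hiF, hiB⟩
    have hi2 : 0 < ((Y 0 * (Y 0 * Mc .rb ^ N)) *ᵥ v) i := by
      rw [← mul_assoc, mulVec_pos_iff (((hYnn 0).mul (hYnn 0)).mul ((hnn .rb).pow _)) hv]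
      simp only [hB] at hiB
      rw [mulVec_pos_iff hrN hv] at hiB
      obtain ⟨k, hk1, hk2⟩ := hiB
      exact ⟨k, (SS.mul ((hYnn 0).mul (hYnn 0)) (hYnn 0) ((hnn .rb).pow _) ((hnn .rb).pow _)
        hEE (SS.refl _) i k).2 hk1, hk2⟩
    rw [← Matrix.mulVec_mulVec, mulVec_pos_iff (hYnn 0)] at hi2
    · obtain ⟨j, hj1, hj2⟩ := hi2
      exact ⟨⟨j, hFY 0 i j hiF hj1, hj2⟩, hj1⟩
    · intro k
      simp only [Matrix.mulVec, dotProduct]
      exact Finset.sum_nonneg (fun m _ => mul_nonneg (hrN k m) (hv m))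
  · intro H i
    have := (hFsupp H i).2 i.2.1
    rw [hadd] at this
    exact this
  · intro H l hl
    rw [← hd1, ← hd2]
    exact h1 _ ((bal_bigw N p hN0 H l).2 hl)
  · intro H l hl
    rw [← hd1, ← hd2]
    refine h2 _ (fun hb => ?_)
    obtain ⟨D, hD, hlt⟩ := hl
    have := (bal_bigw N p hN0 H l).1 hb D hD
    omega

end words

end K9h4.PF
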