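import Pool.Agent.K9h4.PF.Forest
import Pool.Agent.K9h4.PF.Supp

/-!
# The acceptance probability as a quotient of nonnegative rational series
-/

open Finset Matrix

namespace K9h4.PF

/-- data of a block of consecutive columns -/
structure Suf (M : PFA2) where
  V : Type
  [fin : Fintype V]
  [dec : DecidableEq V]
  enter : M.Q → V ⊕ (M.Q ⊕ Bool)
  raw : V → M.Q × Move → V ⊕ (M.Q ⊕ Bool)
  stt : V → M.Q
  smb : V → Sym
  pos : V → ℕ
  enter_ok : ∀ q e, enter q = Sum.inr e → e = Sum.inr false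

attribute [instance] Suf.fin Suf.dec

variable {M : PFA2}

/-- the empty block -/
@[reducible] def Suf.nil (M : PFA2) : Suf M where
  V := Empty
  enter := fun _ => Sum.inr (Sum.inr false)
  raw := fun v => v.elim
  stt := fun v => v.elim
  smb := fun v => v.elim
  pos := fun v => v.elim
  enter_ok := by
    intro q e h
    simpa using h.symm

/-- moves inside the block with one more column -/
def consRaw (S : Suf M) : M.Q ⊕ S.V → M.Q × Move → (M.Q ⊕ S.V) ⊕ (M.Q ⊕ Bool)
  | Sum.inl _, (q', Move.left) => Sum.inr (Sum.inl q')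
  | Sum.inl _, (q', Move.stay) => Sum.inl (Sum.inl q')
  | Sum.inl _, (q', Move.right) => lft (S.enter q')
  | Sum.inr v, t => lft (S.raw v t)

/-- one more column on the left -/
@[reducible] def Suf.cons (s : Sym) (S : Suf M) : Suf M where
  V := M.Q ⊕ S.V
  enter := fun q => Sum.inl (Sum.inl q)
  raw := consRaw S
  stt := Sum.elim (fun q => q) S.stt
  smb := Sum.elim (fun _ => s) S.smb
  pos := Sum.elim (fun _ => 0) (fun v => S.pos v + 1)
  enter_ok := by
    intro q e h
    simp at h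

/-- transition targets, with halting states and killed configurations -/
def Suf.tgt (S : Suf M) (β : S.V → Bool) (v : S.V) (t : M.Q × Move) : S.V ⊕ (M.Q ⊕ Bool) :=
  match M.halt (S.stt v) with
  | some b => Sum.inr (Sum.inr b)
  | none => if β v then Sum.inr (Sum.inr false) else S.raw v t

/-- weights -/
def Suf.wt (S : Suf M) (v : S.V) (t : M.Q × Move) : ℝ := M.prob (S.stt v) (S.smb v) t

/-- the killed set is closed, up to exits on the left -/
def Suf.Closed (S : Suf M) (β : S.V → Bool) : Prop :=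
  ∀ v, β v = true → M.halt (S.stt v) = none ∧ ∀ t, 0 < S.wt v t →
    (∃ v', S.raw v t = Sum.inl v' ∧ β v' = true) ∨ (∃ q', S.raw v t = Sum.inr (Sum.inl q'))

/-- states of the recursion: exit map, killed states in the first column, states into which
killed configurations leave on the left -/
abbrev St (M : PFA2) := (M.Q → M.Q ⊕ Bool) × (M.Q → Bool) × (M.Q → Bool)

/-- the functional graph of killed set and labels -/
def Suf.gr (S : Suf M) (d : S.V → Bool × (M.Q × Move)) : S.V → S.V ⊕ (M.Q ⊕ Bool) :=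
  ff (S.tgt (fun v => (d v).1)) (fun v => (d v).2)

/-- the state `st` describes the block with data `d` -/
def Suf.Inv (S : Suf M) (d : S.V → Bool × (M.Q × Move)) (st : St M) : Prop :=
  S.Closed (fun v => (d v).1) ∧ Acyc (S.gr d) ∧ (∀ q, Reach (S.gr d) (S.enter q) (st.1 q)) ∧
  (∀ q, st.2.1 q = true ↔ ∃ v, S.enter q = Sum.inl v ∧ (d v).1 = true) ∧
  (∀ q, st.2.2 q = true ↔ ∃ v t, (d v).1 = true ∧ 0 < S.wt v t ∧ S.raw v t = Sum.inr (Sum.inl q))

/-- graph on a single column -/
def hh (d0 : M.Q → Bool × (M.Q × Move)) (σ : M.Q → M.Q ⊕ Bool) (q : M.Q) : M.Q ⊕ (M.Q ⊕ Bool) :=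
  match M.halt q with
  | some b => Sum.inr (Sum.inr b)
  | none => if (d0 q).1 then Sum.inr (Sum.inr false) else
    match (d0 q).2 with
    | (q', Move.left) => Sum.inr (Sum.inl q')
    | (q', Move.stay) => Sum.inl q'
    | (q', Move.right) => clp (σ q')

/-- transition of the recursion -/
def Step (s : Sym) (d0 : M.Q → Bool × (M.Q × Move)) (st1 st : St M) : Prop :=
  ((∀ q, (d0 q).1 = true → M.halt q = none ∧ ∀ q',
      (0 < M.prob q s (q', .stay) → (d0 q').1 = true) ∧
      (0 < M.prob q s (q', .right) → st1.2.1 q' = true)) ∧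
    (∀ q', st1.2.2 q' = true → (d0 q').1 = true)) ∧
  Acyc (hh d0 st1.1) ∧ (∀ q, Reach (hh d0 st1.1) (Sum.inl q) (st.1 q)) ∧
  (∀ q, st.2.1 q = (d0 q).1) ∧
  (∀ q', st.2.2 q' = true ↔ ∃ q, (d0 q).1 = true ∧ 0 < M.prob q s (q', .left))

theorem Suf.Inv.unique {S : Suf M} {d : S.V → Bool × (M.Q × Move)} {st st' : St M}
    (h : S.Inv d st) (h' : S.Inv d st') : st = st' := by
  obtain ⟨σ, β, ρ⟩ := st
  obtain ⟨σ', β', ρ'⟩ := st'
  obtain ⟨-, -, h3, h4, h5⟩ := h
  obtain ⟨-, -, h3', h4', h5'⟩ := h'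
  have e1 : σ = σ' := funext (fun q => (h3 q).unique (h3' q))
  have e2 : β = β' := funext (fun q => Bool.eq_iff_iff.2 ((h4 q).trans (h4' q).symm))
  have e3 : ρ = ρ' := funext (fun q => Bool.eq_iff_iff.2 ((h5 q).trans (h5' q).symm))
  rw [e1, e2, e3]

theorem Suf.exists_inv {S : Suf M} {d : S.V → Bool × (M.Q × Move)}
    (h1 : S.Closed (fun v => (d v).1)) (h2 : Acyc (S.gr d)) : ∃ st, S.Inv d st := by
  classical
  have h3 : ∀ q, ∃ e, Reach (S.gr d) (S.enter q) e := by
    intro q
    cases hq : S.enter q with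
    | inl v => exact h2 v
    | inr e => exact ⟨e, Reach.done e⟩
  choose σ hσ using h3
  refine ⟨(σ, fun q => decide (∃ v, S.enter q = Sum.inl v ∧ (d v).1 = true),
    fun q => decide (∃ v t, (d v).1 = true ∧ 0 < S.wt v t ∧ S.raw v t = Sum.inr (Sum.inl q))),
    h1, h2, hσ, ?_, ?_⟩
  · intro q
    simp only [decide_eq_true_eq]
  · intro q
    simp only [decide_eq_true_eq]

/-- data of the longer block -/
def glue {X : Type*} {Q V1 : Type*} (d0 : Q → X) (d1 : V1 → X) : Q ⊕ V1 → X := Sum.elim d0 d1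

theorem gr_inr (s : Sym) (S : Suf M) (d0 : M.Q → Bool × (M.Q × Move))
    (d1 : S.V → Bool × (M.Q × Move)) (v : S.V) :
    (S.cons s).gr (glue d0 d1) (Sum.inr v) = lft (S.gr d1 v) := by
  simp only [Suf.gr, ff, Suf.tgt, glue, Sum.elim_inr]
  cases h : M.halt (S.stt v) with
  | some b => rfl
  | none =>
    by_cases hk : (d1 v).1 = true
    · simp only [hk, if_true]
      rfl
    · simp only [hk]
      rfl

theorem res_inl (s : Sym) (S : Suf M) (d0 : M.Q → Bool × (M.Q × Move))
    (d1 : S.V → Bool × (M.Q × Move)) (σ : M.Q → M.Q ⊕ Bool)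
    (hσ : ∀ q, Reach (S.gr d1) (S.enter q) (σ q)) (q : M.Q) :
    Res ((S.cons s).gr (glue d0 d1)) ((S.cons s).gr (glue d0 d1) (Sum.inl q)) (hh d0 σ q) := by
  have e1 : (S.cons s).gr (glue d0 d1) (Sum.inl q) =
      (match M.halt q with
        | some b => Sum.inr (Sum.inr b)
        | none => if (d0 q).1 then Sum.inr (Sum.inr false) else consRaw S (Sum.inl q) (d0 q).2) := rfl
  have e2 : hh d0 σ q = (match M.halt q with
  | some b => Sum.inr (Sum.inr b)
  | none => if (d0 q).1 then Sum.inr (Sum.inr false) else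
    match (d0 q).2 with
    | (q', Move.left) => Sum.inr (Sum.inl q')
    | (q', Move.stay) => Sum.inl q'
    | (q', Move.right) => clp (σ q')) := rfl
  have hf1 := gr_inr s S d0 d1
  generalize (S.cons s).gr (glue d0 d1) = f at hf1 e1 ⊢
  rw [e1, e2]
  cases hq : M.halt q with
  | some b => exact Res.exit _
  | none =>
    by_cases hk : (d0 q).1 = true
    · simp only [hk, if_true]
      exact Res.exit _
    · simp only [hk]
      rcases hd : (d0 q).2 with ⟨q', m⟩
      cases m with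
      | left => exact Res.exit _
      | stay => exact Res.col _
      | right => exact res_of_reach hf1 (hσ q')

theorem lft_eq_inl {V1 Q : Type*} {z : V1 ⊕ (Q ⊕ Bool)} {v : V1} (h : lft z = Sum.inl (Sum.inr v)) :
    z = Sum.inl v := by
  rcases z with v' | q | b
  · simp only [lft, Sum.inl.injEq, Sum.inr.injEq] at h
    rw [h]
  · simp [lft] at h
  · simp [lft] at h

theorem lft_eq_col {V1 Q : Type*} {z : V1 ⊕ (Q ⊕ Bool)} {q : Q}
    (h : lft z = Sum.inl (Sum.inl q)) : z = Sum.inr (Sum.inl q) := by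
  rcases z with v' | q' | b
  · simp [lft] at h
  · simp only [lft, Sum.inl.injEq] at h
    rw [h]
  · simp [lft] at h

theorem lft_ne_left {V1 Q : Type*} {z : V1 ⊕ (Q ⊕ Bool)} {q : Q}
    (h : lft z = Sum.inr (Sum.inl q)) : False := by
  rcases z with v' | q' | b <;> simp [lft] at h

theorem closed_cons (s : Sym) (S : Suf M) (d0 : M.Q → Bool × (M.Q × Move))
    (d1 : S.V → Bool × (M.Q × Move)) (β1 ρ1 : M.Q → Bool)
    (h4 : ∀ q, β1 q = true ↔ ∃ v, S.enter q = Sum.inl v ∧ (d1 v).1 = true)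
    (h5 : ∀ q, ρ1 q = true ↔ ∃ v t, (d1 v).1 = true ∧ 0 < S.wt v t ∧
      S.raw v t = Sum.inr (Sum.inl q)) :
    (S.cons s).Closed (fun v => (glue d0 d1 v).1) ↔ S.Closed (fun v => (d1 v).1) ∧
    ((∀ q, (d0 q).1 = true → M.halt q = none ∧ ∀ q',
      (0 < M.prob q s (q', .stay) → (d0 q').1 = true) ∧
      (0 < M.prob q s (q', .right) → β1 q' = true)) ∧
    (∀ q', ρ1 q' = true → (d0 q').1 = true)) := by
  constructor
  · intro hC
    refine ⟨?_, ?_, ?_⟩
    · intro v hv
      obtain ⟨h1, h2⟩ := hC (Sum.inr v) hv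
      refine ⟨h1, fun t ht => ?_⟩
      rcases h2 t ht with ⟨v', hv', hb⟩ | ⟨q', hq'⟩
      · have e : lft (S.raw v t) = Sum.inl v' := hv'
        rcases v' with q' | v''
        · exact Or.inr ⟨q', lft_eq_col e⟩
        · exact Or.inl ⟨v'', lft_eq_inl e, hb⟩
      · exact (lft_ne_left (show lft (S.raw v t) = _ from hq')).elim
    · intro q hq
      obtain ⟨h1, h2⟩ := hC (Sum.inl q) hq
      refine ⟨h1, fun q' => ⟨fun hp => ?_, fun hp => ?_⟩⟩
      · rcases h2 (q', .stay) hp with ⟨v', hv', hb⟩ | ⟨q'', hq''⟩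
        · have e : (Sum.inl (Sum.inl q') : (M.Q ⊕ S.V) ⊕ (M.Q ⊕ Bool)) = Sum.inl v' := hv'
          have e' := Sum.inl.inj e
          rw [← e'] at hb
          exact hb
        · have e : (Sum.inl (Sum.inl q') : (M.Q ⊕ S.V) ⊕ (M.Q ⊕ Bool)) = Sum.inr (Sum.inl q'') := hq''
          simp at e
      · rw [h4]
        rcases h2 (q', .right) hp with ⟨v', hv', hb⟩ | ⟨q'', hq''⟩
        · have e : lft (S.enter q') = Sum.inl v' := hv'
          rcases v' with q3 | v''
          · have e3 := lft_eq_col e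
            have := S.enter_ok _ _ e3
            simp at this
          · exact ⟨v'', lft_eq_inl e, hb⟩
        · exact (lft_ne_left (show lft (S.enter q') = _ from hq'')).elim
    · intro q' hq'
      obtain ⟨v, t, hv, ht, hr⟩ := (h5 q').1 hq'
      obtain ⟨-, h2⟩ := hC (Sum.inr v) hv
      have e0 : (S.cons s).raw (Sum.inr v) t = Sum.inl (Sum.inl q') := by
        show lft (S.raw v t) = _
        rw [hr]
        rfl
      rcases h2 t ht with ⟨v', hv', hb⟩ | ⟨q'', hq''⟩
      · rw [e0] at hv'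
        have e' := Sum.inl.inj hv'
        rw [← e'] at hb
        exact hb
      · rw [e0] at hq''
        simp at hq''
  · rintro ⟨hC, hq, hρ⟩ v hv
    rcases v with q | v
    · obtain ⟨h1, h2⟩ := hq q hv
      refine ⟨h1, fun t ht => ?_⟩
      obtain ⟨q', m⟩ := t
      cases m with
      | left => exact Or.inr ⟨q', rfl⟩
      | stay => exact Or.inl ⟨Sum.inl q', rfl, (h2 q').1 ht⟩
      | right =>
        obtain ⟨v, hv1, hv2⟩ := (h4 q').1 ((h2 q').2 ht)
        refine Or.inl ⟨Sum.inr v, ?_, hv2⟩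
        show lft (S.enter q') = _
        rw [hv1]
        rfl
    · obtain ⟨h1, h2⟩ := hC v hv
      refine ⟨h1, fun t ht => ?_⟩
      rcases h2 t ht with ⟨v', hv', hb⟩ | ⟨q', hq'⟩
      · refine Or.inl ⟨Sum.inr v', ?_, hb⟩
        show lft (S.raw v t) = _
        rw [hv']
        rfl
      · refine Or.inl ⟨Sum.inl q', ?_, ?_⟩
        · show lft (S.raw v t) = _
          rw [hq']
          rfl
        · exact hρ q' ((h5 q').2 ⟨v, t, hv, ht, hq'⟩)

theorem rho_cons (s : Sym) (S : Suf M) (d0 : M.Q → Bool × (M.Q × Move))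
    (d1 : S.V → Bool × (M.Q × Move)) (q' : M.Q) :
    (∃ v t, (glue d0 d1 v).1 = true ∧ 0 < (S.cons s).wt v t ∧
      (S.cons s).raw v t = Sum.inr (Sum.inl q')) ↔
    ∃ q, (d0 q).1 = true ∧ 0 < M.prob q s (q', .left) := by
  constructor
  · rintro ⟨v, t, hv, ht, hr⟩
    rcases v with q | v
    · obtain ⟨q'', m⟩ := t
      cases m with
      | left =>
        have e : (Sum.inr (Sum.inl q'') : (M.Q ⊕ S.V) ⊕ (M.Q ⊕ Bool)) = Sum.inr (Sum.inl q') := hr
        simp only [Sum.inr.injEq, Sum.inl.injEq] at e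
        subst e
        exact ⟨q, hv, ht⟩
      | stay =>
        have e : (Sum.inl (Sum.inl q'') : (M.Q ⊕ S.V) ⊕ (M.Q ⊕ Bool)) = Sum.inr (Sum.inl q') := hr
        simp at e
      | right => exact (lft_ne_left (show lft (S.enter q'') = _ from hr)).elim
    · exact (lft_ne_left (show lft (S.raw v t) = _ from hr)).elim
  · rintro ⟨q, hq, hp⟩
    exact ⟨Sum.inl q, (q', .left), hq, hp, rfl⟩

theorem inv_cons (s : Sym) (S : Suf M) (d0 : M.Q → Bool × (M.Q × Move))
    (d1 : S.V → Bool × (M.Q × Move)) (st : St M) :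
    (S.cons s).Inv (glue d0 d1) st ↔ ∃ st1, S.Inv d1 st1 ∧ Step s d0 st1 st := by
  constructor
  · rintro ⟨h1, h2, h3, h4, h5⟩
    have hA1 : Acyc (S.gr d1) := acyc_suffix (gr_inr s S d0 d1) h2
    have hC1 : S.Closed (fun v => (d1 v).1) := by
      have hh := (closed_cons s S d0 d1
        (fun q => @decide (∃ v, S.enter q = Sum.inl v ∧ (d1 v).1 = true) (Classical.propDecidable _))
        (fun q => @decide (∃ v t, (d1 v).1 = true ∧ 0 < S.wt v t ∧
          S.raw v t = Sum.inr (Sum.inl q)) (Classical.propDecidable _))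
        (fun q => by simp) (fun q => by simp)).1 h1
      exact hh.1
    obtain ⟨st1, hst1⟩ := Suf.exists_inv hC1 hA1
    refine ⟨st1, hst1, ?_⟩
    obtain ⟨-, -, g3, g4, g5⟩ := hst1
    have hres := res_inl s S d0 d1 st1.1 g3
    refine ⟨((closed_cons s S d0 d1 _ _ g4 g5).1 h1).2, acyc_col hres h2, ?_, ?_, ?_⟩
    · intro q
      exact reach_col hres (h3 q) _ (Res.col q)
    · intro q
      rw [Bool.eq_iff_iff, h4]
      constructor
      · rintro ⟨v, hv, hb⟩
        have e' := Sum.inl.inj hv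
        rw [← e'] at hb
        exact hb
      · intro hb
        exact ⟨Sum.inl q, rfl, hb⟩
    · intro q'
      rw [h5 q', rho_cons]
  · rintro ⟨st1, ⟨g1, g2, g3, g4, g5⟩, k1, k2, k3, k4, k5⟩
    have hres := res_inl s S d0 d1 st1.1 g3
    have hf1 := gr_inr s S d0 d1
    refine ⟨(closed_cons s S d0 d1 _ _ g4 g5).2 ⟨g1, k1⟩, acyc_of hf1 hres g2 k2, ?_, ?_, ?_⟩
    · intro q
      exact reach_emb hres (k3 q)
    · intro q
      rw [k4 q]
      constructor
      · intro hb
        exact ⟨Sum.inl q, rfl, hb⟩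
      · rintro ⟨v, hv, hb⟩
        have e' := Sum.inl.inj hv
        rw [← e'] at hb
        exact hb
    · intro q'
      rw [k5 q', rho_cons]

section sums

open Classical in
/-- weight sums by state -/
noncomputable def Suf.F (S : Suf M) (st : St M) : ℝ :=
  ∑ d : S.V → Bool × (M.Q × Move), if S.Inv d st then ∏ v, S.wt v (d v).2 else 0

open Classical in
/-- the transfer matrix of a column -/
noncomputable def colM (M : PFA2) (s : Sym) : Matrix (St M) (St M) ℝ := fun st st1 =>
  ∑ d0 : M.Q → Bool × (M.Q × Move), if Step s d0 st1 st then ∏ q, M.prob q s (d0 q).2 else 0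

theorem F_cons (s : Sym) (S : Suf M) : (S.cons s).F = colM M s *ᵥ S.F := by
  classical
  funext st
  have e1 : (S.cons s).F st = ∑ d0 : M.Q → Bool × (M.Q × Move),
      ∑ d1 : S.V → Bool × (M.Q × Move), if (S.cons s).Inv (glue d0 d1) st then
        ∏ v, (S.cons s).wt v (glue d0 d1 v).2 else 0 := by
    unfold Suf.F
    rw [← (Equiv.sumArrowEquivProdArrow M.Q S.V (Bool × (M.Q × Move))).symm.sum_comp,
      Fintype.sum_prod_type]
    rfl
  have e2 : ∀ (d0 : M.Q → Bool × (M.Q × Move)) (d1 : S.V → Bool × (M.Q × Move)), (∏ v, (S.cons s).wt v (glue d0 d1 v).2) =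
      (∏ q, M.prob q s (d0 q).2) * ∏ v, S.wt v (d1 v).2 := by
    intro d0 d1
    exact Fintype.prod_sum_type _
  have e3 : ∀ (d0 : M.Q → Bool × (M.Q × Move)) (d1 : S.V → Bool × (M.Q × Move)), (if (S.cons s).Inv (glue d0 d1) st then
        ∏ v, (S.cons s).wt v (glue d0 d1 v).2 else 0) =
      ∑ st1 : St M, (if Step s d0 st1 st then ∏ q, M.prob q s (d0 q).2 else 0) *
        (if S.Inv d1 st1 then ∏ v, S.wt v (d1 v).2 else 0) := by
    intro d0 d1
    by_cases h : (S.cons s).Inv (glue d0 d1) st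
    · obtain ⟨st1, hi, hs⟩ := (inv_cons s S d0 d1 st).1 h
      rw [if_pos h, e2, Finset.sum_eq_single st1]
      · rw [if_pos hs, if_pos hi]
      · intro st2 _ hne
        rw [if_neg (fun hi2 : S.Inv d1 st2 => hne (hi2.unique hi)), mul_zero]
      · intro hh; exact absurd (Finset.mem_univ _) hh
    · rw [if_neg h]
      symm
      refine Finset.sum_eq_zero (fun st1 _ => ?_)
      by_cases hs : Step s d0 st1 st
      · by_cases hi : S.Inv d1 st1
        · exact absurd ((inv_cons s S d0 d1 st).2 ⟨st1, hi, hs⟩) h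
        · rw [if_neg hi, mul_zero]
      · rw [if_neg hs, zero_mul]
  rw [e1]
  simp_rw [e3]
  simp only [Matrix.mulVec, dotProduct, colM, Suf.F]
  have e4 : ∀ d0 : M.Q → Bool × (M.Q × Move), ∑ d1 : S.V → Bool × (M.Q × Move),
      ∑ st1 : St M, (if Step s d0 st1 st then ∏ q, M.prob q s (d0 q).2 else 0) *
        (if S.Inv d1 st1 then ∏ v, S.wt v (d1 v).2 else 0) =
      ∑ st1 : St M, (if Step s d0 st1 st then ∏ q, M.prob q s (d0 q).2 else 0) *
        ∑ d1 : S.V → Bool × (M.Q × Move), (if S.Inv d1 st1 then ∏ v, S.wt v (d1 v).2 else 0) := by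
    intro d0
    rw [Finset.sum_comm]
    refine Finset.sum_congr rfl (fun st1 _ => ?_)
    rw [Finset.mul_sum]
  simp_rw [e4]
  rw [Finset.sum_comm]
  refine Finset.sum_congr rfl (fun st1 _ => ?_)
  rw [Finset.sum_mul]

end sums

end K9h4.PF
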